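import Pool.Agent.LI5.Defs

/-!
LI5, step A, abnormal case: the choice between `n` and `n'` (helper74).
-/

set_option autoImplicit false

namespace Pool.Agent.LI5

open Pool.Agent.LG6 Pool.Agent.LR5

variable {V : Type} {G : SimpleGraph V}

/-- `x` is good: not both of `s₁`, `s₂` and not both of `t₁`, `t₂` are in `{d, x}` -/
def Gd74 (s₁ s₂ t₁ t₂ d x : V) : Prop :=
  ¬ ((s₁ = d ∨ s₁ = x) ∧ (s₂ = d ∨ s₂ = x)) ∧ ¬ ((t₁ = d ∨ t₁ = x) ∧ (t₂ = d ∨ t₂ = x))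

theorem pick74 {s₁ s₂ t₁ t₂ d n n' : V} (h12 : s₁ ≠ s₂) (k12 : t₁ ≠ t₂)
    (dst : s₁ ≠ t₁ ∧ s₁ ≠ t₂ ∧ s₂ ≠ t₁ ∧ s₂ ≠ t₂) (nn : n ≠ n') :
    Gd74 s₁ s₂ t₁ t₂ d n ∨ Gd74 s₁ s₂ t₁ t₂ d n' := by
  unfold Gd74
  obtain ⟨d1, d2, d3, d4⟩ := dst
  grind

theorem pa74 {a b v s t p q s₁ s₂ t₁ t₂ d x : V}
    (h : Cg G a b v s t p q s₁ s₂ t₁ t₂) (hQ : Ad5 G a b v s t p q {a, p, d, x, b})
    (hg : Gd74 s₁ s₂ t₁ t₂ d x) (hc : Cn G ((({a, p, d, x, b} : Set V) ∪ {v, s, t})ᶜ)) :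
    ∃ P C, Pa5 G a b v s t p q s₁ s₂ t₁ t₂ P C := by
  obtain ⟨hg1, hg2⟩ := hg
  have key : ∀ z : V, z ∉ ((({a, p, d, x, b} : Set V) ∪ {v, s, t})ᶜ) →
      z ≠ v → z ≠ s → z ≠ t → z ≠ a → z ≠ b → z ≠ p → z = d ∨ z = x := by
    intro z hz n1 n2 n3 n4 n5 n6
    rw [Set.mem_compl_iff, not_not] at hz
    rcases hz with hz | hz
    · simp only [Set.mem_insert_iff, Set.mem_singleton_iff] at hz
      rcases hz with e | e | e | e | e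
      · exact absurd e n4
      · exact absurd e n6
      · exact Or.inl e
      · exact Or.inr e
      · exact absurd e n5
    · simp only [Set.mem_insert_iff, Set.mem_singleton_iff] at hz
      rcases hz with e | e | e
      · exact absurd e n1
      · exact absurd e n2
      · exact absurd e n3
  refine ⟨{a, p, d, x, b}, _, hQ, hc, ?_, ?_, ?_, ?_, ?_, ?_⟩
  · rw [Set.disjoint_left]
    exact fun y hy hy' => hy (Or.inl hy')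
  · exact fun h' => h' (Or.inr (by simp))
  · exact fun h' => h' (Or.inr (by simp))
  · exact fun h' => h' (Or.inr (by simp))
  · by_contra hno
    rw [not_or] at hno
    obtain ⟨a1, a2, a3, a4, a5, -⟩ := h.ds₁
    obtain ⟨b1, b2, b3, b4, b5, -⟩ := h.ds₂
    exact hg1 ⟨key _ hno.1 a1 h.ss₁.ne.symm a2 a3 a4 a5, key _ hno.2 b1 h.ss₂.ne.symm b2 b3 b4 b5⟩
  · by_contra hno
    rw [not_or] at hno
    obtain ⟨a1, a2, a3, a4, a5, -⟩ := h.dt₁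
    obtain ⟨b1, b2, b3, b4, b5, -⟩ := h.dt₂
    exact hg2 ⟨key _ hno.1 a1 a2 h.tt₁.ne.symm a3 a4 a5, key _ hno.2 b1 b2 h.tt₂.ne.symm b3 b4 b5⟩

end Pool.Agent.LI5
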