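import Pool.Agent.LI5.Piece
import Pool.Agent.LI5.AAbS74
import Pool.Agent.LI5.AAbS84

/-!
LI5, step A, abnormal case.

`conn_ab`: either there is a pair, or the complement `M` of `{a, p, d, n, b} ∪ {v, s, t}` is connected.
Proof: let `X ⊆ M` be the component of `n'` (`exists_comp`; `n' ∈ M`: `hn'`); `q ∈ M` (`q` is adjacent
to `p`, `n`, `b`; `q ≠ a` as `b ~ q`, `q ≠ d` by `hqd`) and `q ~ n'`, so `q ∈ X`; if `c ∈ M` then `c ~ n'`, so
`c ∈ X`.  If `X = M` then `M` is connected.  Otherwise let `u ∈ M \ X` and `K ⊆ M` its component;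
`K ∩ X = ∅` (closedness and connectedness, `Cn.exit`; or: both are components of `M`).  `q ∉ K`, and `p` is
not adjacent to `K`, since its neighbours are `n, a ∈ {a, p, d, n, b}`, `v`, and `n', q, c` which are in `X`
or not in `M`.  `piece_ok` gives the pair.

`stepA_ab`: choose `x ∈ {n, n'}` such that neither `{s₁, s₂} ⊆ {d, x}` nor `{t₁, t₂} ⊆ {d, x}` (if `n` is bad,
`{s₁, s₂} = {d, n}`, say, and then `d, n` are none of `t₁, t₂`, so `n'` is good, as `n ≠ n'`).  For it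
`conn_ab` gives a pair or `P := {a, p, d, x, b}`, `C := M`; `s₁` or `s₂` is in `C`: otherwise both are in
`{a, p, d, x, b} ∪ {v, s, t}`, hence (`h.ds₁`, `h.ds₂`, `s ≠ s₁`) in `{d, x}`.
-/

set_option autoImplicit false

namespace Pool.Agent.LI5

open Pool.Agent.LG6 Pool.Agent.LR5

variable {V : Type} {G : SimpleGraph V}

theorem conn_ab [Fintype V] (hG : IsKConnected 6 G) {a b v s t p q s₁ s₂ t₁ t₂ c d n n' : V}
    (h : Cg G a b v s t p q s₁ s₂ t₁ t₂) (hQ : Ad5 G a b v s t p q {a, p, d, n, b})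
    (np : ∀ y, G.Adj p y → y = n ∨ y = n' ∨ y = q ∨ y = c ∨ y = a ∨ y = v)
    (qn : G.Adj q n) (qn' : G.Adj q n') (cn' : G.Adj c n')
    (hn' : n' ∉ ({a, p, d, n, b} : Set V) ∪ {v, s, t}) (hqd : q ≠ d) :
    (∃ P C, Pa5 G a b v s t p q s₁ s₂ t₁ t₂ P C) ∨
      Cn G ((({a, p, d, n, b} : Set V) ∪ {v, s, t})ᶜ) :=
  conn_abS84 hG h hQ np qn qn' cn' hn' hqd

theorem stepA_ab [Fintype V] (hG : IsKConnected 6 G) {a b v s t p q s₁ s₂ t₁ t₂ c d n n' : V}
    (h : Cg G a b v s t p q s₁ s₂ t₁ t₂) (hQ : Ad5 G a b v s t p q {a, p, d, n, b})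
    (hQ' : Ad5 G a b v s t p q {a, p, d, n', b})
    (np : ∀ y, G.Adj p y → y = n ∨ y = n' ∨ y = q ∨ y = c ∨ y = a ∨ y = v)
    (nn : n ≠ n') (qn : G.Adj q n) (qn' : G.Adj q n') (cn : G.Adj c n) (cn' : G.Adj c n')
    (hn : n ∉ ({a, p, d, n', b} : Set V) ∪ {v, s, t})
    (hn' : n' ∉ ({a, p, d, n, b} : Set V) ∪ {v, s, t}) (hqd : q ≠ d) :
    ∃ P C, Pa5 G a b v s t p q s₁ s₂ t₁ t₂ P C := by
  rcases pick74 (d := d) h.s12.ne h.t12.ne h.dst nn with hg | hg
  · rcases conn_ab hG h hQ np qn qn' cn' hn' hqd with h1 | h1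
    · exact h1
    · exact pa74 h hQ hg h1
  · rcases conn_ab hG h hQ' (fun y hy => by
      rcases np y hy with e | e | e
      · exact Or.inr (Or.inl e)
      · exact Or.inl e
      · exact Or.inr (Or.inr e)) qn' qn cn hn hqd with h1 | h1
    · exact h1
    · exact pa74 h hQ' hg h1

end Pool.Agent.LI5
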