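import Pool.Agent.LI5.Piece

/-!
LI5/ANmH46: proof of `half` (see LI5/ANm).
-/

set_option autoImplicit false

namespace Pool.Agent.LI5

open Pool.Agent.LG6 Pool.Agent.LR5

variable {V : Type} {G : SimpleGraph V}

/-- a connected set meeting a closed set is contained in it -/
theorem anm46_sub {M W K : Set V} (hcl : ∀ g ∈ W, ∀ g' ∈ M, G.Adj g g' → g' ∈ W) (hK : Cn G K)
    (hKM : K ⊆ M) (hne : (K ∩ W).Nonempty) : K ⊆ W := by
  by_contra hno
  rw [Set.not_subset] at hno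
  obtain ⟨x, hx, hx'⟩ := hno
  obtain ⟨g, g', hg, hg', hgg, hgW, hgW'⟩ := hK.exit (P := W) hne ⟨x, hx, hx'⟩
  exact hgW' (hcl g hgW g' (hKM hg') hgg)

theorem anm46_all {M W : Set V} (hW : W ⊆ M)
    (hcl : ∀ g ∈ W, ∀ g' ∈ M, G.Adj g g' → g' ∈ W)
    (hk : ∀ K ⊆ M, Cn G K → (∀ g ∈ K, ∀ g' ∈ M, G.Adj g g' → g' ∈ K) → (K ∩ W).Nonempty) :
    M = W := by
  apply Set.Subset.antisymm _ hW
  intro x hx
  obtain ⟨K, hK, hxK, hKc, hKcl⟩ := comp G M x hx
  exact anm46_sub hcl hKc hK (hk K hK hKc hKcl) hxK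

theorem anm46_cl {K Q : Set V} {v s t : V}
    (hcl : ∀ g ∈ K, ∀ g' ∈ (Q ∪ {v, s, t})ᶜ, G.Adj g g' → g' ∈ K) :
    ∀ y, y ∉ K → (∃ x ∈ K, G.Adj y x) → y ∈ Q ∨ y = v ∨ y = s ∨ y = t := by
  intro y hy hx
  obtain ⟨x, hx, hyx⟩ := hx
  by_contra hno
  push Not at hno
  refine hy (hcl x hx y ?_ hyx.symm)
  intro h'
  rcases h' with h' | h'
  · exact hno.1 h'
  · rcases h' with h' | h' | h'
    · exact hno.2.1 h'
    · exact hno.2.2.1 h'
    · exact hno.2.2.2 h'

theorem anm46_key [Fintype V] (hG : IsKConnected 6 G)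
    {a b v s t p q s₁ s₂ t₁ t₂ c n n' r : V}
    (h : Cg G a b v s t p q s₁ s₂ t₁ t₂) (hQ : Ad5 G a b v s t p q {a, p, c, r, b})
    (np : ∀ y, G.Adj p y → y = n ∨ y = n' ∨ y = a ∨ y = c ∨ y = v ∨ y = q)
    (nn : G.Adj n n') (hn : n ∈ (({a, p, c, r, b} : Set V) ∪ {v, s, t})ᶜ)
    (hno : ¬ ∃ P C, Pa5 G a b v s t p q s₁ s₂ t₁ t₂ P C) (K : Set V) (hK : Cn G K)
    (hKM : K ⊆ (({a, p, c, r, b} : Set V) ∪ {v, s, t})ᶜ)
    (hcl : ∀ g ∈ K, ∀ g' ∈ (({a, p, c, r, b} : Set V) ∪ {v, s, t})ᶜ, G.Adj g g' → g' ∈ K) :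
    q ∈ K ∨ n ∈ K := by
  by_contra hcon
  push Not at hcon
  obtain ⟨hq, hnK⟩ := hcon
  have hn'K : n' ∉ K := fun h' => hnK (hcl n' h' n hn nn.symm)
  have hd : Disjoint K ({a, p, c, r, b} : Set V) := by
    rw [Set.disjoint_left]
    intro x hx hx'
    exact hKM hx (Or.inl hx')
  refine hno ⟨_, _, piece_ok hG h hQ K hK hd ?_ ?_ ?_ (anm46_cl hcl) hq ?_⟩
  · intro h'
    exact hKM h' (Or.inr (by simp))
  · intro h'
    exact hKM h' (Or.inr (by simp))
  · intro h'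
    exact hKM h' (Or.inr (by simp))
  · intro y hy hpy
    rcases np y hpy with h' | h' | h' | h' | h' | h'
    · rw [h'] at hy; exact hnK hy
    · rw [h'] at hy; exact hn'K hy
    · rw [h'] at hy; exact hKM hy (Or.inl (by simp))
    · rw [h'] at hy; exact hKM hy (Or.inl (by simp))
    · rw [h'] at hy; exact hKM hy (Or.inr (by simp))
    · rw [h'] at hy; exact hq hy

theorem half46 [Fintype V] (hG : IsKConnected 6 G) {a b v s t p q s₁ s₂ t₁ t₂ c n n' m m' : V}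
    (h : Cg G a b v s t p q s₁ s₂ t₁ t₂) (hQ : Ad5 G a b v s t p q {a, p, c, m, b})
    (hQ' : Ad5 G a b v s t p q {a, p, c, m', b})
    (np : ∀ y, G.Adj p y → y = n ∨ y = n' ∨ y = a ∨ y = c ∨ y = v ∨ y = q)
    (nn : G.Adj n n') (qc : G.Adj q c) (qm : G.Adj q m) (qm' : G.Adj q m') (mm : m ≠ m')
    (hn : n ∉ ({a, p, c, m, m', b} : Set V) ∪ {v, s, t})
    (hn' : n' ∉ ({a, p, c, m, m', b} : Set V) ∪ {v, s, t})
    (hm : m ∉ ({a, p, c, m', b} : Set V) ∪ {v, s, t}) :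
    (∃ P C, Pa5 G a b v s t p q s₁ s₂ t₁ t₂ P C) ∨
      Cn G ((({a, p, c, m, b} : Set V) ∪ {v, s, t})ᶜ) ∨
      Cn G ((({a, p, c, m', b} : Set V) ∪ {v, s, t})ᶜ) := by
  by_cases hno : ∃ P C, Pa5 G a b v s t p q s₁ s₂ t₁ t₂ P C
  · exact Or.inl hno
  right
  by_cases h1 : Cn G ((({a, p, c, m, b} : Set V) ∪ {v, s, t})ᶜ)
  · exact Or.inl h1
  right
  have hqa : q ≠ a := fun h' => h.nab (by rw [← h']; exact h.bq.symm)
  have hqM : ∀ r, G.Adj q r → q ∈ (({a, p, c, r, b} : Set V) ∪ {v, s, t})ᶜ := by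
    intro r hr h'
    rcases h' with h' | h'
    · rcases h' with h' | h' | h' | h' | h'
      · exact hqa h'
      · exact h.pq.ne h'.symm
      · exact qc.ne h'
      · exact hr.ne h'
      · exact h.bq.ne (Set.mem_singleton_iff.1 h').symm
    · rcases h' with h' | h' | h'
      · exact h.vq.ne h'.symm
      · exact h.qs h'
      · exact h.qt (Set.mem_singleton_iff.1 h')
  have hnM : n ∈ (({a, p, c, m, b} : Set V) ∪ {v, s, t})ᶜ := by
    intro h'
    apply hn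
    rcases h' with h' | h'
    · left
      rcases h' with h' | h' | h' | h' | h' <;> simp_all
    · exact Or.inr h'
  have hnM' : n ∈ (({a, p, c, m', b} : Set V) ∪ {v, s, t})ᶜ := by
    intro h'
    apply hn
    rcases h' with h' | h'
    · left
      rcases h' with h' | h' | h' | h' | h' <;> simp_all
    · exact Or.inr h'
  obtain ⟨W, hW, hnW, hWc, hWcl⟩ := comp G _ n hnM
  have hqW : q ∉ W := by
    intro hq
    apply h1
    have h2 := anm46_all hW hWcl (fun K hK hKc hKcl => by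
      rcases anm46_key hG h hQ np nn hnM hno K hKc hK hKcl with h' | h'
      · exact ⟨q, h', hq⟩
      · exact ⟨n, h', hnW⟩)
    rw [h2]
    exact hWc
  have hWd : Disjoint W ({a, p, c, m, b} : Set V) := by
    rw [Set.disjoint_left]
    intro x hx hx'
    exact hW hx (Or.inl hx')
  have hvW : v ∉ W := fun h' => hW h' (Or.inr (by simp))
  have hsW : s ∉ W := fun h' => hW h' (Or.inr (by simp))
  have htW : t ∉ W := fun h' => hW h' (Or.inr (by simp))
  have haW : a ∉ W := fun h' => hW h' (Or.inl (by simp))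
  have hbW : b ∉ W := fun h' => hW h' (Or.inl (by simp))
  have hst : ¬ ((∃ x ∈ W, G.Adj s x) ∧ ∃ x ∈ W, G.Adj t x) := by
    rintro ⟨⟨x, hx, hsx⟩, ⟨y, hy, hty⟩⟩
    refine hno ⟨_, W, ⟨hQ, hWc, hWd, hvW, hsW, htW, ?_, ?_⟩⟩
    · rcases h.ns x hsx with h' | h' | h' | h' | h' | h'
      · rw [h'] at hx; exact absurd hx hvW
      · rw [h'] at hx; exact absurd hx htW
      · rw [h'] at hx; exact absurd hx haW
      · rw [h'] at hx; exact absurd hx hbW
      · rw [h'] at hx; exact Or.inl hx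
      · rw [h'] at hx; exact Or.inr hx
    · rcases h.nt y hty with h' | h' | h' | h' | h' | h'
      · rw [h'] at hy; exact absurd hy hvW
      · rw [h'] at hy; exact absurd hy hsW
      · rw [h'] at hy; exact absurd hy haW
      · rw [h'] at hy; exact absurd hy hbW
      · rw [h'] at hy; exact Or.inl hy
      · rw [h'] at hy; exact Or.inr hy
  obtain ⟨w, hwW, hmw⟩ := piece_adj hG h W hWc hWd hvW hsW htW (anm46_cl hWcl) hqW hst m (by simp)
  have hm'W : m' ∉ W := fun h' => hqW (hWcl m' h' q (hqM m qm) qm'.symm)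
  have hWM' : W ⊆ (({a, p, c, m', b} : Set V) ∪ {v, s, t})ᶜ := by
    intro x hx h'
    have h2 := hW hx
    rcases h' with h' | h'
    · rcases h' with h' | h' | h' | h' | h'
      · exact h2 (Or.inl (by simp [h']))
      · exact h2 (Or.inl (by simp [h']))
      · exact h2 (Or.inl (by simp [h']))
      · rw [h'] at hx
        exact hm'W hx
      · rw [Set.mem_singleton_iff] at h'
        exact h2 (Or.inl (by simp [h']))
    · exact h2 (Or.inr h')
  have hX0 : Cn G (insert q (insert m W)) :=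
    Cn.insert (Cn.insert hWc ⟨w, hwW, hmw⟩) ⟨m, Set.mem_insert m W, qm⟩
  obtain ⟨X, hX, hnX, hXc, hXcl⟩ := comp G _ n hnM'
  have hX0M : insert q (insert m W) ⊆ (({a, p, c, m', b} : Set V) ∪ {v, s, t})ᶜ := by
    intro x hx
    rcases Set.mem_insert_iff.1 hx with h' | hx
    · rw [h']
      exact hqM m' qm'
    · rcases Set.mem_insert_iff.1 hx with h' | hx
      · rw [h']
        exact hm
      · exact hWM' hx
  have hX0X := anm46_sub hXcl hX0 hX0M
    ⟨n, Set.mem_insert_of_mem q (Set.mem_insert_of_mem m hnW), hnX⟩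
  have hqX : q ∈ X := hX0X (Set.mem_insert q _)
  have h2 := anm46_all hX hXcl (fun K hK hKc hKcl => by
    rcases anm46_key hG h hQ' np nn hnM' hno K hKc hK hKcl with h' | h'
    · exact ⟨q, h', hqX⟩
    · exact ⟨n, h', hnX⟩)
  rw [h2]
  exact hXc

end Pool.Agent.LI5
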