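import Pool.Agent.LI5.Defs
import Pool.Agent.LI4.KNb

/-!
LI5, step A: general lemmas on the pieces of `G` minus the triangle minus `{a, p, z, r, b}`.

`exists_comp`: the set of the vertices reachable from `u` inside `M` (`LG6.reach_conn` or the component
of `G.induce M`).

`piece_ok`: `S := {y | y ∉ K ∧ ∃ u ∈ K, G.Adj y u}` has at least six elements (`LI4.nbhd6` with the vertex
`p`: `p ∉ K`, `p` not adjacent to `K`).  By `hcl` every element of `S` is in `{a, p, z, r, b}` or one of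
`v, s, t`; `p ∉ S`, and `v ∉ S` (`h.nv`: the neighbours of `v` are `s, t, a, b, p, q`, none of them in `K`).
So `S ⊆ {a, z, r, b, s, t}`, hence `s, t ∈ S`: `s` is adjacent to a vertex of `K`, which by `h.ns` is `s₁`
or `s₂`; the same for `t`.

`piece_adj`: `6 ≤ S.ncard` (`LI4.nbhd6` with `v`: not adjacent to `K`), `S ⊆ {a, p, z, r, b, s, t}` and not both
`s`, `t` are in `S`, so `{a, p, z, r, b} ⊆ S`.
-/

set_option autoImplicit false

namespace Pool.Agent.LI5

open Pool.Agent.LG6 Pool.Agent.LR5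

variable {V : Type} {G : SimpleGraph V}

theorem exists_comp (G : SimpleGraph V) (M : Set V) (u : V) (hu : u ∈ M) :
    ∃ K : Set V, K ⊆ M ∧ u ∈ K ∧ Cn G K ∧ ∀ y, y ∉ K → (∃ z ∈ K, G.Adj y z) → y ∉ M := by
  refine ⟨{w | Relation.ReflTransGen (fun x y => G.Adj x y ∧ y ∈ M) u w}, ?_, Relation.ReflTransGen.refl,
    reach_conn (fun x y h => h.1) u, ?_⟩
  · intro w hw
    induction hw with
    | refl => exact hu
    | tail _ h _ => exact h.2
  · rintro y hy ⟨z, hz, hyz⟩ hyM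
    exact hy (Relation.ReflTransGen.tail hz ⟨hyz.symm, hyM⟩)

theorem ncard_five [Fintype V] {S : Set V} {x₁ x₂ x₃ x₄ x₅ : V}
    (h : ∀ y ∈ S, y = x₁ ∨ y = x₂ ∨ y = x₃ ∨ y = x₄ ∨ y = x₅) : S.ncard ≤ 5 := by
  classical
  have h1 : S ⊆ (({x₁, x₂, x₃, x₄, x₅} : Finset V) : Set V) := by
    intro y hy
    rcases h y hy with h | h | h | h | h <;> simp [h]
  calc S.ncard ≤ (({x₁, x₂, x₃, x₄, x₅} : Finset V) : Set V).ncard :=
        Set.ncard_le_ncard h1 (Finset.finite_toSet _)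
    _ = ({x₁, x₂, x₃, x₄, x₅} : Finset V).card := Set.ncard_coe_finset _
    _ ≤ 5 := Finset.card_le_five

theorem piece_ok [Fintype V] (hG : IsKConnected 6 G) {a b v s t p q s₁ s₂ t₁ t₂ z r : V}
    (h : Cg G a b v s t p q s₁ s₂ t₁ t₂) (hQ : Ad5 G a b v s t p q {a, p, z, r, b}) (K : Set V)
    (hK : Cn G K) (hKQ : Disjoint K ({a, p, z, r, b} : Set V)) (hv : v ∉ K) (hs : s ∉ K)
    (ht : t ∉ K)
    (hcl : ∀ y, y ∉ K → (∃ x ∈ K, G.Adj y x) →
      y ∈ ({a, p, z, r, b} : Set V) ∨ y = v ∨ y = s ∨ y = t)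
    (hq : q ∉ K) (hp : ∀ y ∈ K, ¬ G.Adj p y) : Pa5 G a b v s t p q s₁ s₂ t₁ t₂ {a, p, z, r, b} K := by
  have hd : ∀ y ∈ K, y ≠ a ∧ y ≠ p ∧ y ≠ z ∧ y ≠ r ∧ y ≠ b := by
    intro y hy
    have := Set.disjoint_left.1 hKQ hy
    simp only [Set.mem_insert_iff, Set.mem_singleton_iff, not_or] at this
    exact this
  have hne : K.Nonempty := by
    obtain ⟨x⟩ := hK.nonempty
    exact ⟨x.1, x.2⟩
  have hpK : p ∉ K := fun hpK => (hd p hpK).2.1 rfl
  have h6 := LI4.nbhd6 hG K hne p hpK hp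
  have hvK : ∀ u ∈ K, ¬ G.Adj v u := by
    intro u hu hvu
    rcases h.nv u hvu with rfl | rfl | rfl | rfl | rfl | rfl
    · exact hs hu
    · exact ht hu
    · exact (hd _ hu).1 rfl
    · exact (hd _ hu).2.2.2.2 rfl
    · exact hpK hu
    · exact hq hu
  have hS : ∀ y ∈ ({y | y ∉ K ∧ ∃ u ∈ K, G.Adj y u} : Set V),
      y = a ∨ y = z ∨ y = r ∨ y = b ∨ y = s ∨ y = t := by
    rintro y ⟨hy, u, hu, hyu⟩
    rcases hcl y hy ⟨u, hu, hyu⟩ with h1 | h1 | h1 | h1
    · simp only [Set.mem_insert_iff, Set.mem_singleton_iff] at h1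
      rcases h1 with h1 | h1 | h1 | h1 | h1
      · exact Or.inl h1
      · rw [h1] at hyu
        exact absurd hyu (hp u hu)
      · exact Or.inr (Or.inl h1)
      · exact Or.inr (Or.inr (Or.inl h1))
      · exact Or.inr (Or.inr (Or.inr (Or.inl h1)))
    · rw [h1] at hyu
      exact absurd hyu (hvK u hu)
    · simp [h1]
    · simp [h1]
  have hsK : ∃ u ∈ K, G.Adj s u := by
    by_contra hc
    have := ncard_five (S := {y | y ∉ K ∧ ∃ u ∈ K, G.Adj y u}) (x₁ := a) (x₂ := z) (x₃ := r) (x₄ := b)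
      (x₅ := t) (by
        intro y hy
        rcases hS y hy with h1 | h1 | h1 | h1 | h1 | h1
        · simp [h1]
        · simp [h1]
        · simp [h1]
        · simp [h1]
        · rw [h1] at hy
          exact absurd hy.2 hc
        · simp [h1])
    omega
  have htK : ∃ u ∈ K, G.Adj t u := by
    by_contra hc
    have := ncard_five (S := {y | y ∉ K ∧ ∃ u ∈ K, G.Adj y u}) (x₁ := a) (x₂ := z) (x₃ := r) (x₄ := b)
      (x₅ := s) (by
        intro y hy
        rcases hS y hy with h1 | h1 | h1 | h1 | h1 | h1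
        · simp [h1]
        · simp [h1]
        · simp [h1]
        · simp [h1]
        · simp [h1]
        · rw [h1] at hy
          exact absurd hy.2 hc)
    omega
  refine ⟨hQ, hK, hKQ, hv, hs, ht, ?_, ?_⟩
  · obtain ⟨u, hu, hsu⟩ := hsK
    rcases h.ns u hsu with rfl | rfl | rfl | rfl | rfl | rfl
    · exact absurd hu hv
    · exact absurd hu ht
    · exact absurd rfl (hd _ hu).1
    · exact absurd rfl (hd _ hu).2.2.2.2
    · exact Or.inl hu
    · exact Or.inr hu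
  · obtain ⟨u, hu, htu⟩ := htK
    rcases h.nt u htu with rfl | rfl | rfl | rfl | rfl | rfl
    · exact absurd hu hv
    · exact absurd hu hs
    · exact absurd rfl (hd _ hu).1
    · exact absurd rfl (hd _ hu).2.2.2.2
    · exact Or.inl hu
    · exact Or.inr hu

theorem ncard_five' [Fintype V] {S : Set V} {x₁ x₂ x₃ x₄ x₅ : V} (h6 : 6 ≤ S.ncard)
    (h : ∀ y ∈ S, y = x₁ ∨ y = x₂ ∨ y = x₃ ∨ y = x₄ ∨ y = x₅) : False := by
  have := ncard_five h
  omega

/-- `s` and `t` are not in `K` (needed: otherwise `K = {s}` is a counterexample) -/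
theorem piece_adj [Fintype V] (hG : IsKConnected 6 G) {a b v s t p q s₁ s₂ t₁ t₂ z r : V}
    (h : Cg G a b v s t p q s₁ s₂ t₁ t₂) (K : Set V)
    (hK : Cn G K) (hKQ : Disjoint K ({a, p, z, r, b} : Set V)) (hv : v ∉ K) (hs : s ∉ K)
    (ht : t ∉ K)
    (hcl : ∀ y, y ∉ K → (∃ x ∈ K, G.Adj y x) →
      y ∈ ({a, p, z, r, b} : Set V) ∨ y = v ∨ y = s ∨ y = t)
    (hq : q ∉ K) (hst : ¬ ((∃ x ∈ K, G.Adj s x) ∧ ∃ x ∈ K, G.Adj t x)) :
    ∀ y ∈ ({a, p, z, r, b} : Set V), ∃ x ∈ K, G.Adj y x := by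
  have hd : ∀ y ∈ K, y ≠ a ∧ y ≠ p ∧ y ≠ z ∧ y ≠ r ∧ y ≠ b := by
    intro y hy
    have := Set.disjoint_left.1 hKQ hy
    simp only [Set.mem_insert_iff, Set.mem_singleton_iff, not_or] at this
    exact this
  have hne : K.Nonempty := by
    obtain ⟨x⟩ := hK.nonempty
    exact ⟨x.1, x.2⟩
  have hvK : ∀ u ∈ K, ¬ G.Adj v u := by
    intro u hu hvu
    rcases h.nv u hvu with rfl | rfl | rfl | rfl | rfl | rfl
    · exact hs hu
    · exact ht hu
    · exact (hd _ hu).1 rfl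
    · exact (hd _ hu).2.2.2.2 rfl
    · exact (hd _ hu).2.1 rfl
    · exact hq hu
  have h6 := LI4.nbhd6 hG K hne v hv hvK
  -- one vertex `w` of `s, t` remains
  obtain ⟨w, hw⟩ : ∃ w, ∀ y ∈ ({y | y ∉ K ∧ ∃ u ∈ K, G.Adj y u} : Set V),
      y = a ∨ y = p ∨ y = z ∨ y = r ∨ y = b ∨ y = w := by
    have hS : ∀ y ∈ ({y | y ∉ K ∧ ∃ u ∈ K, G.Adj y u} : Set V),
        y = a ∨ y = p ∨ y = z ∨ y = r ∨ y = b ∨ y = s ∨ y = t := by
      rintro y ⟨hy, u, hu, hyu⟩
      rcases hcl y hy ⟨u, hu, hyu⟩ with h1 | h1 | h1 | h1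
      · simp only [Set.mem_insert_iff, Set.mem_singleton_iff] at h1
        rcases h1 with h1 | h1 | h1 | h1 | h1 <;> simp [h1]
      · rw [h1] at hyu
        exact absurd hyu (hvK u hu)
      · simp [h1]
      · simp [h1]
    by_cases hc : ∃ x ∈ K, G.Adj s x
    · refine ⟨s, fun y hy => ?_⟩
      rcases hS y hy with h1 | h1 | h1 | h1 | h1 | h1 | h1
      · simp [h1]
      · simp [h1]
      · simp [h1]
      · simp [h1]
      · simp [h1]
      · simp [h1]
      · rw [h1] at hy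
        exact absurd ⟨hc, hy.2⟩ hst
    · refine ⟨t, fun y hy => ?_⟩
      rcases hS y hy with h1 | h1 | h1 | h1 | h1 | h1 | h1
      · simp [h1]
      · simp [h1]
      · simp [h1]
      · simp [h1]
      · simp [h1]
      · rw [h1] at hy
        exact absurd hy.2 hc
      · simp [h1]
  intro y hy
  by_contra hc
  simp only [Set.mem_insert_iff, Set.mem_singleton_iff] at hy
  have hyn : ∀ y' ∈ ({y | y ∉ K ∧ ∃ u ∈ K, G.Adj y u} : Set V), y' ≠ y := by
    rintro y' hy' rfl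
    exact hc hy'.2
  rcases hy with hy | hy | hy | hy | hy
  · refine ncard_five' (x₁ := p) (x₂ := z) (x₃ := r) (x₄ := b) (x₅ := w) h6 fun y' hy' => ?_
    rcases hw y' hy' with h1 | h1 | h1 | h1 | h1 | h1
    · exact absurd (h1.trans hy.symm) (hyn y' hy')
    all_goals simp [h1]
  · refine ncard_five' (x₁ := a) (x₂ := z) (x₃ := r) (x₄ := b) (x₅ := w) h6 fun y' hy' => ?_
    rcases hw y' hy' with h1 | h1 | h1 | h1 | h1 | h1
    · simp [h1]
    · exact absurd (h1.trans hy.symm) (hyn y' hy')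
    all_goals simp [h1]
  · refine ncard_five' (x₁ := a) (x₂ := p) (x₃ := r) (x₄ := b) (x₅ := w) h6 fun y' hy' => ?_
    rcases hw y' hy' with h1 | h1 | h1 | h1 | h1 | h1
    · simp [h1]
    · simp [h1]
    · exact absurd (h1.trans hy.symm) (hyn y' hy')
    all_goals simp [h1]
  · refine ncard_five' (x₁ := a) (x₂ := p) (x₃ := z) (x₄ := b) (x₅ := w) h6 fun y' hy' => ?_
    rcases hw y' hy' with h1 | h1 | h1 | h1 | h1 | h1
    · simp [h1]
    · simp [h1]
    · simp [h1]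
    · exact absurd (h1.trans hy.symm) (hyn y' hy')
    all_goals simp [h1]
  · refine ncard_five' (x₁ := a) (x₂ := p) (x₃ := z) (x₄ := r) (x₅ := w) h6 fun y' hy' => ?_
    rcases hw y' hy' with h1 | h1 | h1 | h1 | h1 | h1
    · simp [h1]
    · simp [h1]
    · simp [h1]
    · simp [h1]
    · exact absurd (h1.trans hy.symm) (hyn y' hy')
    · simp [h1]

end Pool.Agent.LI5
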