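import Pool.Agent.LI5.ANmS78
import Pool.Agent.LI5.Piece
import Pool.Agent.LI5.ANmH46

/-!
LI5, step A, normal case.

`half`.  Let `Mm` be the complement of `{a, p, c, m, b} ∪ {v, s, t}`.  Suppose it is not connected and that
there is no pair.  `q ∈ Mm`, `n, n' ∈ Mm` (`hn`, `hn'`; `q` is adjacent to `p, c, m, b`, `q ≠ a`).  By
`piece_ok` every component `K` of `Mm` contains `q` or a neighbour of `p` in `Mm`, that is `n`, `n'` or `q`
(`np`); `n ~ n'`; so the components are that of `q` and that of `n`, and they are different.  Let `W`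
(`exists_comp`) be the component of `n`: `q ∉ W`.  If both `s` and `t` are adjacent to `W` we have a pair
(`P := {a, p, c, m, b}`, `C := W`, by `h.ns`, `h.nt`).  Otherwise `piece_adj`: `m` is adjacent to `W`.
Now let `M'` be the complement of `{a, p, c, m', b} ∪ {v, s, t}`: `m' ∉ W` (`m' ~ q`, and `q ∈ Mm`, `q ∉ W`, `W`
closed), so `W ⊆ M'`, `m ∈ M'`, `q ∈ M'`, and `W ∪ {m, q}` is connected (`m ~ q`); so `n, n', q` are in one
component `X` of `M'`; every other component of `M'` contains neither `q` nor a neighbour of `p`: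
`piece_ok`, so there is none and `M'` is connected.

`stepA_nm`: by `half` and `half` for `h.swap` (with the roles of `n, n'` and `m, m'` exchanged; `Pa5.swap`)
there is a pair, or the complements of `{a, p, c, r, b} ∪ {v, s, t}` and `{b, q, c, l, a} ∪ {v, s, t}` are
connected, `r ∈ {m, m'}`, `l ∈ {n, n'}`.  `C :=` the first complement gives a pair, unless `{s₁, s₂}` or
`{t₁, t₂}` is contained in `{a, p, c, r, b} ∪ {v, s, t}`, hence in `{c, r}`, hence equal to it (`s₁ ≠ s₂`,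
adjacent).  In the same way `{c, l}` is one of the pairs.  Both contain `c`, so by `h.dst` it is the same
pair, `{c, r} = {c, l}`, `r = l` (`r, l ≠ c`: `q ~ r`, `c ~ r`..., or: `r` and `l` are the elements
different from `c`), but `q ~ r` and `q` is not adjacent to `l`.
-/

set_option autoImplicit false

namespace Pool.Agent.LI5

open Pool.Agent.LG6 Pool.Agent.LR5

variable {V : Type} {G : SimpleGraph V}

theorem half [Fintype V] (hG : IsKConnected 6 G) {a b v s t p q s₁ s₂ t₁ t₂ c n n' m m' : V}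
    (h : Cg G a b v s t p q s₁ s₂ t₁ t₂) (hQ : Ad5 G a b v s t p q {a, p, c, m, b})
    (hQ' : Ad5 G a b v s t p q {a, p, c, m', b})
    (np : ∀ y, G.Adj p y → y = n ∨ y = n' ∨ y = a ∨ y = c ∨ y = v ∨ y = q)
    (nn : G.Adj n n') (qc : G.Adj q c) (qm : G.Adj q m) (qm' : G.Adj q m') (mm : m ≠ m')
    (hn : n ∉ ({a, p, c, m, m', b} : Set V) ∪ {v, s, t})
    (hn' : n' ∉ ({a, p, c, m, m', b} : Set V) ∪ {v, s, t})
    (hm : m ∉ ({a, p, c, m', b} : Set V) ∪ {v, s, t}) :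
    (∃ P C, Pa5 G a b v s t p q s₁ s₂ t₁ t₂ P C) ∨
      Cn G ((({a, p, c, m, b} : Set V) ∪ {v, s, t})ᶜ) ∨
      Cn G ((({a, p, c, m', b} : Set V) ∪ {v, s, t})ᶜ) :=
  half46 hG h hQ hQ' np nn qc qm qm' mm hn hn' hm

theorem stepA_nm [Fintype V] (hG : IsKConnected 6 G) {a b v s t p q s₁ s₂ t₁ t₂ c n n' m m' : V}
    (h : Cg G a b v s t p q s₁ s₂ t₁ t₂)
    (h1 : Ad5 G a b v s t p q {a, p, c, m, b}) (h2 : Ad5 G a b v s t p q {a, p, c, m', b})
    (h3 : Ad5 G a b v s t p q {b, q, c, n, a}) (h4 : Ad5 G a b v s t p q {b, q, c, n', a})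
    (np : ∀ y, G.Adj p y → y = n ∨ y = n' ∨ y = a ∨ y = c ∨ y = v ∨ y = q)
    (nq : ∀ y, G.Adj q y → y = m ∨ y = m' ∨ y = b ∨ y = c ∨ y = v ∨ y = p)
    (nn : G.Adj n n') (mm : G.Adj m m') (pc : G.Adj p c) (qc : G.Adj q c) (qm : G.Adj q m)
    (qm' : G.Adj q m') (pn : G.Adj p n) (pn' : G.Adj p n') (cn : G.Adj c n) (cn' : G.Adj c n')
    (cm : G.Adj c m) (cm' : G.Adj c m') (nqn : ¬ G.Adj q n) (nqn' : ¬ G.Adj q n')
    (npm : ¬ G.Adj p m) (npm' : ¬ G.Adj p m')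
    (nab : n ≠ b ∧ n' ≠ b ∧ m ≠ a ∧ m' ≠ a ∧ n ≠ a ∧ n' ≠ a ∧ m ≠ b ∧ m' ≠ b)
    (hT : (n ≠ v ∧ n ≠ s ∧ n ≠ t) ∧ (n' ≠ v ∧ n' ≠ s ∧ n' ≠ t) ∧ (m ≠ v ∧ m ≠ s ∧ m ≠ t) ∧
      (m' ≠ v ∧ m' ≠ s ∧ m' ≠ t)) :
    ∃ P C, Pa5 G a b v s t p q s₁ s₂ t₁ t₂ P C :=
  ANmS78.stepA_nm_of (fun _ _ _ _ _ _ _ _ _ _ _ _ _ _ _ _ h hQ hQ' np nn qc qm qm' mm hn hn' hm =>
    half hG h hQ hQ' np nn qc qm qm' mm hn hn' hm) h h1 h2 h3 h4 np nq nn mm pc qc qm qm' pn pn' cn cn' cm cm'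
    nqn nqn' npm npm' nab hT

end Pool.Agent.LI5
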