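import Pool.Agent.LI5.Defs

/-!
LI5, step A, normal case: `stepA_nm` from `half`.
-/

set_option autoImplicit false

namespace Pool.Agent.LI5.ANmS78

open Pool.Agent.LG6 Pool.Agent.LR5 Pool.Agent.LI5

variable {V : Type} {G : SimpleGraph V}

theorem pair_of {a b v s t p q s₁ s₂ t₁ t₂ : V} (h : Cg G a b v s t p q s₁ s₂ t₁ t₂) {Q : Set V}
    (hQ : Ad5 G a b v s t p q Q) (hC : Cn G ((Q ∪ {v, s, t})ᶜ)) (hs : s₁ ∉ Q ∨ s₂ ∉ Q)
    (ht : t₁ ∉ Q ∨ t₂ ∉ Q) : ∃ P C, Pa5 G a b v s t p q s₁ s₂ t₁ t₂ P C := by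
  refine ⟨Q, (Q ∪ {v, s, t})ᶜ, hQ, hC, ?_, ?_, ?_, ?_, ?_, ?_⟩
  · rw [Set.disjoint_left]
    intro x hx hxQ
    exact hx (Or.inl hxQ)
  · intro hx
    exact hx (Or.inr (by simp))
  · intro hx
    exact hx (Or.inr (by simp))
  · intro hx
    exact hx (Or.inr (by simp))
  · rcases hs with hs | hs
    · left
      rintro (hx | hx | hx | hx)
      · exact hs hx
      · exact h.ds₁.1 hx
      · exact h.ss₁.ne hx.symm
      · exact h.ds₁.2.1 hx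
    · right
      rintro (hx | hx | hx | hx)
      · exact hs hx
      · exact h.ds₂.1 hx
      · exact h.ss₂.ne hx.symm
      · exact h.ds₂.2.1 hx
  · rcases ht with ht | ht
    · left
      rintro (hx | hx | hx | hx)
      · exact ht hx
      · exact h.dt₁.1 hx
      · exact h.dt₁.2.1 hx
      · exact h.tt₁.ne hx.symm
    · right
      rintro (hx | hx | hx | hx)
      · exact ht hx
      · exact h.dt₂.1 hx
      · exact h.dt₂.2.1 hx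
      · exact h.tt₂.ne hx.symm

/-- no pair: two of the special vertices are `c`, `r` -/
theorem forced {a b v s t p q s₁ s₂ t₁ t₂ c r : V} (h : Cg G a b v s t p q s₁ s₂ t₁ t₂)
    (hQ : Ad5 G a b v s t p q {a, p, c, r, b}) (hC : Cn G ((({a, p, c, r, b} : Set V) ∪ {v, s, t})ᶜ))
    (hno : ¬ ∃ P C, Pa5 G a b v s t p q s₁ s₂ t₁ t₂ P C) :
    ((s₁ = c ∨ s₁ = r) ∧ (s₂ = c ∨ s₂ = r)) ∨ ((t₁ = c ∨ t₁ = r) ∧ (t₂ = c ∨ t₂ = r)) := by
  by_contra hcon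
  push Not at hcon
  obtain ⟨c1, c2⟩ := hcon
  refine hno (pair_of h hQ hC ?_ ?_)
  · by_contra hs
    push Not at hs
    obtain ⟨k1, k2⟩ := hs
    have e1 : s₁ = c ∨ s₁ = r := by
      rcases k1 with k | k | k | k | k
      · exact absurd k h.ds₁.2.2.1
      · exact absurd k h.ds₁.2.2.2.2.1
      · exact Or.inl k
      · exact Or.inr k
      · exact absurd k h.ds₁.2.2.2.1
    have e2 : s₂ = c ∨ s₂ = r := by
      rcases k2 with k | k | k | k | k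
      · exact absurd k h.ds₂.2.2.1
      · exact absurd k h.ds₂.2.2.2.2.1
      · exact Or.inl k
      · exact Or.inr k
      · exact absurd k h.ds₂.2.2.2.1
    have := c1 e1
    rcases e2 with e | e
    · exact this.1 e
    · exact this.2 e
  · by_contra hs
    push Not at hs
    obtain ⟨k1, k2⟩ := hs
    have e1 : t₁ = c ∨ t₁ = r := by
      rcases k1 with k | k | k | k | k
      · exact absurd k h.dt₁.2.2.1
      · exact absurd k h.dt₁.2.2.2.2.1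
      · exact Or.inl k
      · exact Or.inr k
      · exact absurd k h.dt₁.2.2.2.1
    have e2 : t₂ = c ∨ t₂ = r := by
      rcases k2 with k | k | k | k | k
      · exact absurd k h.dt₂.2.2.1
      · exact absurd k h.dt₂.2.2.2.2.1
      · exact Or.inl k
      · exact Or.inr k
      · exact absurd k h.dt₂.2.2.2.1
    have := c2 e1
    rcases e2 with e | e
    · exact this.1 e
    · exact this.2 e

/-- the end of the argument -/
theorem fin {a b v s t p q s₁ s₂ t₁ t₂ c r l : V} (h : Cg G a b v s t p q s₁ s₂ t₁ t₂)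
    (h1 : Ad5 G a b v s t p q {a, p, c, r, b}) (c1 : Cn G ((({a, p, c, r, b} : Set V) ∪ {v, s, t})ᶜ))
    (h2 : Ad5 G a b v s t p q {b, q, c, l, a}) (c2 : Cn G ((({b, q, c, l, a} : Set V) ∪ {v, s, t})ᶜ))
    (qr : G.Adj q r) (ql : ¬ G.Adj q l) : ∃ P C, Pa5 G a b v s t p q s₁ s₂ t₁ t₂ P C := by
  by_contra hno
  have f1 := forced h h1 c1 hno
  have hno' : ¬ ∃ P C, Pa5 G b a v s t q p s₁ s₂ t₁ t₂ P C := by
    rintro ⟨P, C, hPC⟩
    exact hno ⟨P, C, hPC.swap⟩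
  have f2 := forced h.swap h2.swap c2 hno'
  have hrl : r ≠ l := by
    rintro rfl
    exact ql qr
  have ns : s₁ ≠ s₂ := h.s12.ne
  have nt : t₁ ≠ t₂ := h.t12.ne
  obtain ⟨d1, d2, d3, d4⟩ := h.dst
  rcases f1 with ⟨e1, e2⟩ | ⟨e1, e2⟩ <;> rcases f2 with ⟨g1, g2⟩ | ⟨g1, g2⟩ <;>
    rcases e1 with e1 | e1 <;> rcases e2 with e2 | e2 <;> rcases g1 with g1 | g1 <;>
      rcases g2 with g2 | g2 <;> simp_all

theorem notin6 {x x1 x2 x3 x4 x5 x6 v s t : V} (h1 : x ≠ x1) (h2 : x ≠ x2) (h3 : x ≠ x3)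
    (h4 : x ≠ x4) (h5 : x ≠ x5) (h6 : x ≠ x6) (hT : x ≠ v ∧ x ≠ s ∧ x ≠ t) :
    x ∉ ({x1, x2, x3, x4, x5, x6} : Set V) ∪ {v, s, t} := by
  rintro ((h | h | h | h | h | h) | (h | h | h))
  · exact h1 h
  · exact h2 h
  · exact h3 h
  · exact h4 h
  · exact h5 h
  · exact h6 h
  · exact hT.1 h
  · exact hT.2.1 h
  · exact hT.2.2 h

theorem notin5 {x x1 x2 x3 x4 x5 v s t : V} (h1 : x ≠ x1) (h2 : x ≠ x2) (h3 : x ≠ x3)
    (h4 : x ≠ x4) (h5 : x ≠ x5) (hT : x ≠ v ∧ x ≠ s ∧ x ≠ t) :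
    x ∉ ({x1, x2, x3, x4, x5} : Set V) ∪ {v, s, t} := by
  rintro ((h | h | h | h | h) | (h | h | h))
  · exact h1 h
  · exact h2 h
  · exact h3 h
  · exact h4 h
  · exact h5 h
  · exact hT.1 h
  · exact hT.2.1 h
  · exact hT.2.2 h

/-- The statement of `half`. -/
def Half (G : SimpleGraph V) : Prop := ∀ a b v s t p q s₁ s₂ t₁ t₂ c n n' m m' : V,
    Cg G a b v s t p q s₁ s₂ t₁ t₂ → Ad5 G a b v s t p q {a, p, c, m, b} →
    Ad5 G a b v s t p q {a, p, c, m', b} →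
    (∀ y, G.Adj p y → y = n ∨ y = n' ∨ y = a ∨ y = c ∨ y = v ∨ y = q) →
    G.Adj n n' → G.Adj q c → G.Adj q m → G.Adj q m' → m ≠ m' →
    n ∉ ({a, p, c, m, m', b} : Set V) ∪ {v, s, t} →
    n' ∉ ({a, p, c, m, m', b} : Set V) ∪ {v, s, t} →
    m ∉ ({a, p, c, m', b} : Set V) ∪ {v, s, t} →
    (∃ P C, Pa5 G a b v s t p q s₁ s₂ t₁ t₂ P C) ∨
      Cn G ((({a, p, c, m, b} : Set V) ∪ {v, s, t})ᶜ) ∨
      Cn G ((({a, p, c, m', b} : Set V) ∪ {v, s, t})ᶜ)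

theorem stepA_nm_of (hH : Half G) {a b v s t p q s₁ s₂ t₁ t₂ c n n' m m' : V}
    (h : Cg G a b v s t p q s₁ s₂ t₁ t₂)
    (h1 : Ad5 G a b v s t p q {a, p, c, m, b}) (h2 : Ad5 G a b v s t p q {a, p, c, m', b})
    (h3 : Ad5 G a b v s t p q {b, q, c, n, a}) (h4 : Ad5 G a b v s t p q {b, q, c, n', a})
    (np : ∀ y, G.Adj p y → y = n ∨ y = n' ∨ y = a ∨ y = c ∨ y = v ∨ y = q)
    (nq : ∀ y, G.Adj q y → y = m ∨ y = m' ∨ y = b ∨ y = c ∨ y = v ∨ y = p)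
    (nn : G.Adj n n') (mm : G.Adj m m') (pc : G.Adj p c) (qc : G.Adj q c) (qm : G.Adj q m)
    (qm' : G.Adj q m') (pn : G.Adj p n) (pn' : G.Adj p n') (cn : G.Adj c n) (cn' : G.Adj c n')
    (cm : G.Adj c m) (cm' : G.Adj c m') (nqn : ¬ G.Adj q n) (nqn' : ¬ G.Adj q n')
    (npm : ¬ G.Adj p m) (npm' : ¬ G.Adj p m')
    (nab : n ≠ b ∧ n' ≠ b ∧ m ≠ a ∧ m' ≠ a ∧ n ≠ a ∧ n' ≠ a ∧ m ≠ b ∧ m' ≠ b)
    (hT : (n ≠ v ∧ n ≠ s ∧ n ≠ t) ∧ (n' ≠ v ∧ n' ≠ s ∧ n' ≠ t) ∧ (m ≠ v ∧ m ≠ s ∧ m ≠ t) ∧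
      (m' ≠ v ∧ m' ≠ s ∧ m' ≠ t)) :
    ∃ P C, Pa5 G a b v s t p q s₁ s₂ t₁ t₂ P C := by
  obtain ⟨nb, nb', ma, ma', na, na', mb, mb'⟩ := nab
  obtain ⟨Tn, Tn', Tm, Tm'⟩ := hT
  have n_m : n ≠ m := by rintro rfl; exact nqn qm
  have n_m' : n ≠ m' := by rintro rfl; exact nqn qm'
  have n'_m : n' ≠ m := by rintro rfl; exact nqn' qm
  have n'_m' : n' ≠ m' := by rintro rfl; exact nqn' qm'
  have m_p : m ≠ p := by rintro rfl; exact npm' mm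
  have m'_p : m' ≠ p := by rintro rfl; exact npm mm.symm
  have n_q : n ≠ q := by rintro rfl; exact nqn' nn
  have n'_q : n' ≠ q := by rintro rfl; exact nqn nn.symm
  have k1 := hH a b v s t p q s₁ s₂ t₁ t₂ c n n' m m' h h1 h2 np nn qc qm qm' mm.ne
    (notin6 na pn.ne' cn.ne' n_m n_m' nb Tn) (notin6 na' pn'.ne' cn'.ne' n'_m n'_m' nb' Tn')
    (notin5 ma m_p cm.ne' mm.ne mb Tm)
  have k2 := hH b a v s t q p s₁ s₂ t₁ t₂ c m m' n n' h.swap h3.swap h4.swap nq mm pc pn pn' nn.ne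
    (notin6 mb qm.ne' cm.ne' n_m.symm n'_m.symm ma Tm)
    (notin6 mb' qm'.ne' cm'.ne' n_m'.symm n'_m'.symm ma' Tm')
    (notin5 nb n_q cn.ne' nn.ne na Tn)
  rcases k1 with k1 | k1
  · exact k1
  rcases k2 with ⟨P, C, k2⟩ | k2
  · exact ⟨P, C, k2.swap⟩
  rcases k1 with k1 | k1 <;> rcases k2 with k2 | k2
  · exact fin h h1 k1 h3 k2 qm nqn
  · exact fin h h1 k1 h4 k2 qm nqn'
  · exact fin h h2 k1 h3 k2 qm' nqn
  · exact fin h h2 k1 h4 k2 qm' nqn'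

end Pool.Agent.LI5.ANmS78
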