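import Pool.Agent.LI5.TyTwo
import Pool.Agent.LI4.Role

/-!
LI5: the neighbourhood of the `NC` hub `s` of `T2 G v s t a b a' b'`.

`ty_cases` at `s`.  If `T2` at `s`: `role_s` gives `T2 G s v t a b e e'`,
take `s₁ := e`, `s₂ := e'` (`t2_all` at `s`).  If `QV G s A B`, `v ∈ A` (otherwise `q.swap`): the other
two elements of `A` are adjacent common neighbours of `v` and `s`, hence in `{t, a, b}` (`t2_all` at `v`;
`s` is not adjacent to `a'`, `b'`): they are `t, a` or `t, b`, as `a` is not adjacent to `b`.  If `t, a`: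
`b ∈ B` (`b` is a neighbour of `s` not in `A`); let `s₁, s₂` be the other elements of `B`; `t` is not
adjacent to `s₁`, since otherwise `t s₁` and `v b` contradict `qv_disj`; the same for `s₂`.  If `t, b`:
`a ∈ B`, the same with `a` instead of `b`.
-/

set_option autoImplicit false

namespace Pool.Agent.LI5

open Pool.Agent.LG6 Pool.Agent.LR5 Pool.Agent.LD6 Pool.Agent.LI4

variable {V : Type} {G : SimpleGraph V}

/-- the case `v, t, a ∈ A` -/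
theorem pair_s_aux [Fintype V] (hG : IsKConnected 6 G) (hm : ¬ HasCompleteMinor 6 G)
    {v s t a b a' b' : V} (h : T2 G v s t a b a' b') {A B : Finset V} (q : QV G s A B)
    (hv : v ∈ A) (ht : t ∈ A) (ha : a ∈ A) (hall : ∀ x ∈ A, x = v ∨ x = t ∨ x = a) :
    ∃ s₁ s₂, G.Adj s s₁ ∧ G.Adj s s₂ ∧ G.Adj s₁ s₂ ∧
      (∀ y, G.Adj s y → y = v ∨ y = t ∨ y = a ∨ y = b ∨ y = s₁ ∨ y = s₂) ∧
      ¬ G.Adj t s₁ ∧ ¬ G.Adj t s₂ ∧ (s₁ ≠ v ∧ s₁ ≠ t ∧ s₁ ≠ a ∧ s₁ ≠ b) ∧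
      (s₂ ≠ v ∧ s₂ ≠ t ∧ s₂ ≠ a ∧ s₂ ≠ b) := by
  classical
  have hb : b ∈ B := by
    rcases (q.nbr b).1 h.sb with hb | hb
    · rcases hall b hb with e | e | e
      · exact absurd e h.vb.ne.symm
      · exact absurd e h.tb.ne.symm
      · exact absurd e h.ne.2.2.2.2.1.symm
    · exact hb
  obtain ⟨s₁, h₁, s₂, h₂, n1, n2, n3, hB⟩ := others q.hB hb
  have hne : ∀ x ∈ B, x ≠ v ∧ x ≠ t ∧ x ≠ a := fun x hx =>
    ⟨fun e => q.disj v hv (e ▸ hx), fun e => q.disj t ht (e ▸ hx), fun e => q.disj a ha (e ▸ hx)⟩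
  refine ⟨s₁, s₂, (q.nbr _).2 (Or.inr h₁), (q.nbr _).2 (Or.inr h₂), q.cB _ h₁ _ h₂ n3, ?_,
    fun e => qv_disj hG hm q ht hv h₁ hb h.vt.ne.symm n1 e h.vb,
    fun e => qv_disj hG hm q ht hv h₂ hb h.vt.ne.symm n2 e h.vb,
    ⟨(hne _ h₁).1, (hne _ h₁).2.1, (hne _ h₁).2.2, n1⟩,
    ⟨(hne _ h₂).1, (hne _ h₂).2.1, (hne _ h₂).2.2, n2⟩⟩
  intro y hy
  rcases (q.nbr y).1 hy with hy | hy
  · rcases hall y hy with e | e | e
    · exact Or.inl e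
    · exact Or.inr (Or.inl e)
    · exact Or.inr (Or.inr (Or.inl e))
  · exact Or.inr (Or.inr (Or.inr (hB y hy)))

theorem pair_s_qv [Fintype V] (hG : IsKConnected 6 G) (hm : ¬ HasCompleteMinor 6 G)
    {v s t a b a' b' : V} (Av : At G v) (h : T2 G v s t a b a' b') {A B : Finset V}
    (q : QV G s A B) (hv : v ∈ A) :
    ∃ s₁ s₂, G.Adj s s₁ ∧ G.Adj s s₂ ∧ G.Adj s₁ s₂ ∧
      (∀ y, G.Adj s y → y = v ∨ y = t ∨ y = a ∨ y = b ∨ y = s₁ ∨ y = s₂) ∧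
      ¬ G.Adj t s₁ ∧ ¬ G.Adj t s₂ ∧ (s₁ ≠ v ∧ s₁ ≠ t ∧ s₁ ≠ a ∧ s₁ ≠ b) ∧
      (s₂ ≠ v ∧ s₂ ≠ t ∧ s₂ ≠ a ∧ s₂ ≠ b) := by
  classical
  obtain ⟨c, hc, c', hc', n1, n2, n3, hall⟩ := others q.hA hv
  have key : ∀ x ∈ A, x ≠ v → x = t ∨ x = a ∨ x = b := by
    intro x hx hxv
    have e1 : G.Adj s x := (q.nbr x).2 (Or.inl hx)
    have e2 : G.Adj v x := q.cA _ hv _ hx hxv.symm
    rcases t2_all Av h x e2 with e | e | e | e | e | e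
    · exact absurd e e1.ne.symm
    · exact Or.inl e
    · exact Or.inr (Or.inl e)
    · exact Or.inr (Or.inr e)
    · exact absurd (e ▸ e1) h.nsa
    · exact absurd (e ▸ e1) h.nsb
  have hcc : G.Adj c c' := q.cA _ hc _ hc' n3
  have fin : (c = t ∧ c' = a) ∨ (c = a ∧ c' = t) ∨ (c = t ∧ c' = b) ∨ (c = b ∧ c' = t) := by
    rcases key c hc n1 with e | e | e <;> rcases key c' hc' n2 with e' | e' | e'
    · exact absurd (e.trans e'.symm) n3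
    · exact Or.inl ⟨e, e'⟩
    · exact Or.inr (Or.inr (Or.inl ⟨e, e'⟩))
    · exact Or.inr (Or.inl ⟨e, e'⟩)
    · exact absurd (e.trans e'.symm) n3
    · rw [e, e'] at hcc
      exact absurd hcc h.nab
    · exact Or.inr (Or.inr (Or.inr ⟨e, e'⟩))
    · rw [e, e'] at hcc
      exact absurd hcc.symm h.nab
    · exact absurd (e.trans e'.symm) n3
  have hrev : t ∈ A → b ∈ A → (∀ x ∈ A, x = v ∨ x = t ∨ x = b) →
      ∃ s₁ s₂, G.Adj s s₁ ∧ G.Adj s s₂ ∧ G.Adj s₁ s₂ ∧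
      (∀ y, G.Adj s y → y = v ∨ y = t ∨ y = a ∨ y = b ∨ y = s₁ ∨ y = s₂) ∧
      ¬ G.Adj t s₁ ∧ ¬ G.Adj t s₂ ∧ (s₁ ≠ v ∧ s₁ ≠ t ∧ s₁ ≠ a ∧ s₁ ≠ b) ∧
      (s₂ ≠ v ∧ s₂ ≠ t ∧ s₂ ≠ a ∧ s₂ ≠ b) := by
    intro ht hb hal
    obtain ⟨s₁, s₂, k1, k2, k3, k4, k5, k6, k7, k8⟩ := pair_s_aux hG hm h.rev q hv ht hb hal
    refine ⟨s₁, s₂, k1, k2, k3, ?_, k5, k6, ⟨k7.1, k7.2.1, k7.2.2.2, k7.2.2.1⟩,
      ⟨k8.1, k8.2.1, k8.2.2.2, k8.2.2.1⟩⟩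
    intro y hy
    rcases k4 y hy with e | e | e | e | e | e
    · exact Or.inl e
    · exact Or.inr (Or.inl e)
    · exact Or.inr (Or.inr (Or.inr (Or.inl e)))
    · exact Or.inr (Or.inr (Or.inl e))
    · exact Or.inr (Or.inr (Or.inr (Or.inr (Or.inl e))))
    · exact Or.inr (Or.inr (Or.inr (Or.inr (Or.inr e))))
  rcases fin with ⟨e, e'⟩ | ⟨e, e'⟩ | ⟨e, e'⟩ | ⟨e, e'⟩
  · subst e
    subst e'
    exact pair_s_aux hG hm h q hv hc hc' hall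
  · subst e
    subst e'
    exact pair_s_aux hG hm h q hv hc' hc fun x hx => by
      rcases hall x hx with e | e | e
      · exact Or.inl e
      · exact Or.inr (Or.inr e)
      · exact Or.inr (Or.inl e)
  · subst e
    subst e'
    exact hrev hc hc' hall
  · subst e
    subst e'
    exact hrev hc' hc fun x hx => by
      rcases hall x hx with e | e | e
      · exact Or.inl e
      · exact Or.inr (Or.inr e)
      · exact Or.inr (Or.inl e)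

theorem pair_s [Fintype V] (hG : IsKConnected 6 G) (hm : ¬ HasCompleteMinor 6 G)
    (hA : ¬ ∃ p, NoMin G {p}) {v s t a b a' b' : V} (Av : At G v) (h : T2 G v s t a b a' b')
    (ns : NC G s) : ∃ s₁ s₂, G.Adj s s₁ ∧ G.Adj s s₂ ∧ G.Adj s₁ s₂ ∧
      (∀ y, G.Adj s y → y = v ∨ y = t ∨ y = a ∨ y = b ∨ y = s₁ ∨ y = s₂) ∧
      ¬ G.Adj t s₁ ∧ ¬ G.Adj t s₂ ∧ (s₁ ≠ v ∧ s₁ ≠ t ∧ s₁ ≠ a ∧ s₁ ≠ b) ∧
      (s₂ ≠ v ∧ s₂ ≠ t ∧ s₂ ≠ a ∧ s₂ ≠ b) := by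
  have As : At G s := At.mk' hG hm ns
  rcases ty_cases hG hm hA ns with ⟨p, q, x, y, x', y', hs⟩ | ⟨A, B, q⟩
  · obtain ⟨e, e', k⟩ := role_s Av As h hs
    exact ⟨e, e', k.va', k.vb', k.ab', t2_all As k, k.nta, k.ntb,
      ⟨k.ne.1.symm, k.ne.2.2.1.symm, k.aa'.ne.symm, k.ne.2.2.2.2.2.2.symm⟩,
      ⟨k.ne.2.1.symm, k.ne.2.2.2.1.symm, k.ne.2.2.2.2.2.1.symm, k.bb'.ne.symm⟩⟩
  · rcases (q.nbr v).1 h.vs.symm with hv | hv
    · exact pair_s_qv hG hm Av h q hv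
    · exact pair_s_qv hG hm Av h q.swap hv

end Pool.Agent.LI5
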