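import Pool.Agent.LI4.DefsT

/-!
LI5: the second part of `RoleQ` (theorem `both`), with the conclusions of `role_p` as hypotheses.
-/

set_option autoImplicit false

namespace Pool.Agent.LI5

open Pool.Agent.LG6 Pool.Agent.LR5 Pool.Agent.LD6 Pool.Agent.LI4

variable {V : Type} {G : SimpleGraph V}

theorem both_s88_mixed {v a b a' b' n n' c m m' d : V} (Aa' : At G a')
    (hab' : ¬ G.Adj a b')
    (h1 : T2 G a' n n' a c v b') (h2 : T2 G b' m m' a' d v b) : False := by
  have key : ∀ y, G.Adj a' y → G.Adj b' y → y ≠ v → y = c := by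
    intro y e1 e2 e3
    rcases t2_all Aa' h1 y e1 with e | e | e | e | e | e
    · exact absurd (e ▸ e2.symm) h1.nsb
    · exact absurd (e ▸ e2.symm) h1.ntb
    · exact absurd (e ▸ e2.symm) hab'
    · exact e
    · exact absurd e e3
    · exact absurd e e2.ne'
  exact h2.st.ne ((key m h2.sa.symm h2.vs h2.ne.1).trans
    (key m' h2.ta.symm h2.vt h2.ne.2.2.1).symm)

theorem both_s88 {v s t a b a' b' : V} (Aa' : At G a') (Ab' : At G b')
    (h : T2 G v s t a b a' b')
    (h1 : (∃ n n' c, T2 G a' n n' a c v b') ∨ ∃ n n' c, T2 G a' n n' b' c v a)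
    (h2 : (∃ n n' c, T2 G b' n n' b c v a') ∨ ∃ n n' c, T2 G b' n n' a' c v b) :
    (∃ c n n' m m', T2 G a' n n' a c v b' ∧ T2 G b' m m' b c v a') ∨
      ∃ c d n n', T2 G a' n n' b' c v a ∧ T2 G b' n n' a' d v b := by
  rcases h1 with ⟨n, n', c, h1⟩ | ⟨n, n', c, h1⟩ <;> rcases h2 with ⟨m, m', d, h2⟩ | ⟨m, m', d, h2⟩
  · left
    have hd : d = c := by
      rcases t2_all Aa' h1 d h2.bb'.symm with e | e | e | e | e | e
      · exact absurd (e ▸ h2.vb.symm) h1.nsb
      · exact absurd (e ▸ h2.vb.symm) h1.ntb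
      · exact absurd (e ▸ h2.vb.symm) h.nab'
      · exact e
      · exact absurd e h2.ne.2.2.2.2.2.2
      · exact absurd e h2.vb.ne'
    subst hd
    exact ⟨d, n, n', m, m', h1, h2⟩
  · exact (both_s88_mixed Aa' h.nab' h1 h2).elim
  · exact (both_s88_mixed Ab' h.nba' h2 h1).elim
  · right
    have key : ∀ y, G.Adj a' y → G.Adj b' y → y ≠ v → y = n ∨ y = n' := by
      intro y e1 e2 e3
      rcases t2_all Aa' h1 y e1 with e | e | e | e | e | e
      · exact Or.inl e
      · exact Or.inr e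
      · exact absurd e e2.ne'
      · exact absurd (e ▸ e2) h1.nab
      · exact absurd e e3
      · exact absurd (e ▸ e2.symm) h.nab'
    rcases key m h2.sa.symm h2.vs h2.ne.1 with e | e
    · rcases key m' h2.ta.symm h2.vt h2.ne.2.2.1 with e' | e'
      · exact absurd (e.trans e'.symm) h2.st.ne
      · exact ⟨c, d, n, n', h1, by rw [← e, ← e']; exact h2⟩
    · rcases key m' h2.ta.symm h2.vt h2.ne.2.2.1 with e' | e'
      · exact ⟨c, d, n, n', h1, by rw [← e, ← e']; exact h2.swap⟩
      · exact absurd (e.trans e'.symm) h2.st.ne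

end Pool.Agent.LI5
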