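import Pool.Agent.LI5.RoleQS30
import Pool.Agent.LI4.DefsT
import Pool.Agent.LI5.BothS88

/-!
LI5: the roles of `v` in `N(a')` and `N(b')`.  Let `h : T2 G v s t a b a' b'`.

`role_p`: the common neighbours of `v` and `a'` are `a` and `b'` (`t2_all` at `v`; `a'` is not adjacent to
`s`, `t`, `b`).  In `h' : T2 G a' p q x y x' y'` the vertex `v` is one of the six; `p`, `q`, `x`, `y` have
three different common neighbours with `a'` (`q, x, y`; `p, x, y`; `p, q, x'`; `p, q, y'`), so `v = x'` or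
`v = y'` (use `h'.rev`), and `x`, `y'` are then the two common neighbours: `x = a`, `y' = b'` (first
alternative) or `x = b'`, `y' = a` (second alternative).  (Compare `LI4/RoleP`.)

`both`: apply `role_p` to `a'` and (with `h.rev`) to `b'`.
(N, N'): `T2 G a' n n' a c v b'`, `T2 G b' m m' b d v a'`: `d ~ a'`, `d ~ b'`; `t2_all` at `a'`: `d` is one of
`n, n', a, c, v, b'`; `n`, `n'`, `a` are not adjacent to `b'`, `d ≠ v` (field `ne`), `d ≠ b'`; so `d = c`.
(N, A'): `T2 G b' m m' a' d v b`: `m ~ a', b'`, so as before `m = c` (`m ≠ v`) and `m' = c`, but `m ~ m'`.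
(A, N'): symmetric.
(A, A'): `T2 G a' n n' b' c v a`, `T2 G b' m m' a' d v b`: `m ~ a'`, `m ~ b'`; `t2_all` at `a'`: `m` is one of
`n, n', b', c, v, a`; `c` and `a` are not adjacent to `b'`; `m ≠ v`; so `m ∈ {n, n'}`, the same for `m'`;
`m ≠ m'`; use `T2.swap` if `m = n'`.
-/

set_option autoImplicit false

namespace Pool.Agent.LI5

open Pool.Agent.LG6 Pool.Agent.LR5 Pool.Agent.LD6 Pool.Agent.LI4

variable {V : Type} {G : SimpleGraph V}

theorem role_p {v s t a b a' b' p q x y x' y' : V} (Av : At G v) (Aa' : At G a')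
    (h : T2 G v s t a b a' b') (h' : T2 G a' p q x y x' y') :
    (∃ n n' c, T2 G a' n n' a c v b') ∨ ∃ n n' c, T2 G a' n n' b' c v a :=
  role_pS30 Av Aa' h h'

theorem both {v s t a b a' b' : V} (Av : At G v) (Aa' : At G a') (Ab' : At G b')
    (h : T2 G v s t a b a' b') (h1 : ∃ p q x y x' y', T2 G a' p q x y x' y')
    (h2 : ∃ p q x y x' y', T2 G b' p q x y x' y') :
    (∃ c n n' m m', T2 G a' n n' a c v b' ∧ T2 G b' m m' b c v a') ∨
      ∃ c d n n', T2 G a' n n' b' c v a ∧ T2 G b' n n' a' d v b := by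
  obtain ⟨_, _, _, _, _, _, k1⟩ := h1
  obtain ⟨_, _, _, _, _, _, k2⟩ := h2
  exact both_s88 Aa' Ab' h (role_p Av Aa' h k1) (role_p Av Ab' h.rev k2)

end Pool.Agent.LI5
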