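import Pool.Agent.LI5.LemB
import Pool.Agent.LI5.AAb
import Pool.Agent.LI5.ANm
import Pool.Agent.LI5.PairS
import Pool.Agent.LI5.RoleQ

/-!
LI5: assembly of the configuration and of the routes.
-/

set_option autoImplicit false

namespace Pool.Agent.LI5

open Pool.Agent.LG6 Pool.Agent.LR5 Pool.Agent.LD6 Pool.Agent.LI4

variable {V : Type} {G : SimpleGraph V}

theorem exists_cg [Fintype V] (hG : IsKConnected 6 G) (hm : ¬ HasCompleteMinor 6 G)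
    (hA : ¬ ∃ p, NoMin G {p}) {v s t a b a' b' : V} (Av : At G v) (h : T2 G v s t a b a' b')
    (ns : NC G s) (nt : NC G t) : ∃ s₁ s₂ t₁ t₂, Cg G a b v s t a' b' s₁ s₂ t₁ t₂ := by
  obtain ⟨s₁, s₂, x1, x2, x3, x4, x5, x6, x7, x8⟩ := pair_s hG hm hA Av h ns
  obtain ⟨t₁, t₂, y1, y2, y3, y4, y5, y6, y7, y8⟩ := pair_s hG hm hA Av h.swap nt
  refine ⟨s₁, s₂, t₁, t₂, ?_⟩
  exact
    { vs := h.vs
      vt := h.vt
      st := h.st
      av := h.va.symm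
      as := h.sa.symm
      at' := h.ta.symm
      bv := h.vb.symm
      bs := h.sb.symm
      bt := h.tb.symm
      nab := h.nab
      ab := h.ne.2.2.2.2.1
      nv := t2_all Av h
      ns := x4
      nt := y4
      vp := h.va'
      vq := h.vb'
      pq := h.ab'
      ap := h.aa'
      bq := h.bb'
      naq := h.nab'
      nbp := h.nba'
      ss₁ := x1
      ss₂ := x2
      s12 := x3
      tt₁ := y1
      tt₂ := y2
      t12 := y3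
      ds₁ := ⟨x7.1, x7.2.1, x7.2.2.1, x7.2.2.2, fun e => h.nsa (e ▸ x1), fun e => h.nsb (e ▸ x1)⟩
      ds₂ := ⟨x8.1, x8.2.1, x8.2.2.1, x8.2.2.2, fun e => h.nsa (e ▸ x2), fun e => h.nsb (e ▸ x2)⟩
      dt₁ := ⟨y7.1, y7.2.1, y7.2.2.1, y7.2.2.2, fun e => h.nta (e ▸ y1), fun e => h.ntb (e ▸ y1)⟩
      dt₂ := ⟨y8.1, y8.2.1, y8.2.2.1, y8.2.2.2, fun e => h.nta (e ▸ y2), fun e => h.ntb (e ▸ y2)⟩
      dst := ⟨fun e => x5 (e ▸ y1), fun e => x5 (e ▸ y2), fun e => x6 (e ▸ y1),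
        fun e => x6 (e ▸ y2)⟩
      ps := h.ne.1.symm
      pt := h.ne.2.2.1.symm
      qs := h.ne.2.1.symm
      qt := h.ne.2.2.2.1.symm }

/-- the path `a p z r b` or `a p r z b`, with `q` and the triangle avoided -/
theorem ad5_of {a b v s t p q z r : V}
    (hc : Cn G ({a, p, z, r, b} : Set V)) (ha : a ≠ v ∧ a ≠ s ∧ a ≠ t ∧ a ≠ q)
    (hp : p ≠ v ∧ p ≠ s ∧ p ≠ t ∧ p ≠ q) (hz : z ≠ v ∧ z ≠ s ∧ z ≠ t ∧ z ≠ q)
    (hr : r ≠ v ∧ r ≠ s ∧ r ≠ t ∧ r ≠ q) (hb : b ≠ v ∧ b ≠ s ∧ b ≠ t ∧ b ≠ q) :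
    Ad5 G a b v s t p q {a, p, z, r, b} := by
  obtain ⟨a1, a2, a3, a4⟩ := ha
  obtain ⟨p1, p2, p3, p4⟩ := hp
  obtain ⟨z1, z2, z3, z4⟩ := hz
  obtain ⟨r1, r2, r3, r4⟩ := hr
  obtain ⟨b1, b2, b3, b4⟩ := hb
  refine ⟨hc, by simp, by simp, ?_, ?_, ?_, ?_⟩
  · simp [a1.symm, p1.symm, z1.symm, r1.symm, b1.symm]
  · simp [a2.symm, p2.symm, z2.symm, r2.symm, b2.symm]
  · simp [a3.symm, p3.symm, z3.symm, r3.symm, b3.symm]
  · intro hh
    have := hh.2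
    simp [a4.symm, p4.symm, z4.symm, r4.symm, b4.symm] at this

theorem path_zr {a p z r b : V} (ap : G.Adj a p) (pz : G.Adj p z) (zr : G.Adj z r)
    (rb : G.Adj r b) : Cn G ({a, p, z, r, b} : Set V) := by
  have k1 : Cn G ({b} : Set V) := cn_single G b
  have k2 : Cn G (insert r ({b} : Set V)) := Cn.insert k1 ⟨b, rfl, rb⟩
  have k3 : Cn G (insert z (insert r ({b} : Set V))) := Cn.insert k2 ⟨r, Or.inl rfl, zr⟩
  have k4 : Cn G (insert p (insert z (insert r ({b} : Set V)))) :=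
    Cn.insert k3 ⟨z, Or.inl rfl, pz⟩
  exact Cn.insert k4 ⟨p, Or.inl rfl, ap⟩

theorem path_rz {a p z r b : V} (ap : G.Adj a p) (pr : G.Adj p r) (rz : G.Adj r z)
    (zb : G.Adj z b) : Cn G ({a, p, z, r, b} : Set V) := by
  have k1 := path_zr ap pr rz zb
  have e : ({a, p, r, z, b} : Set V) = {a, p, z, r, b} := by
    ext x
    simp only [Set.mem_insert_iff, Set.mem_singleton_iff]
    tauto
  rwa [e] at k1

/-- normal case -/
theorem nm_ad {v s t a b a' b' n n' c m m' : V} (h : T2 G v s t a b a' b')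
    (k : T2 G a' n n' a c v b') (l : T2 G b' m m' b c v a') :
    Ad5 G a b v s t a' b' {a, a', c, m, b} := by
  refine ad5_of (path_zr h.aa' k.vb l.sb.symm l.sa) ⟨h.va.ne', h.sa.ne', h.ta.ne', h.ne.2.2.2.2.2.1⟩
    ⟨h.va'.ne', h.ne.1.symm, h.ne.2.2.1.symm, h.ab'.ne⟩
    ⟨k.ne.2.2.2.2.2.2, fun e => h.nsa (e ▸ k.vb.symm), fun e => h.nta (e ▸ k.vb.symm), l.vb.ne'⟩
    ⟨l.ne.1, fun e => h.nsb (e ▸ l.vs.symm), fun e => h.ntb (e ▸ l.vs.symm), l.vs.ne'⟩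
    ⟨h.vb.ne', h.sb.ne', h.tb.ne', h.bb'.ne⟩

/-- abnormal case -/
theorem ab_ad {v s t a b a' b' n n' c d : V} (h : T2 G v s t a b a' b')
    (k : T2 G a' n n' b' c v a) (l : T2 G b' n n' a' d v b) :
    Ad5 G a b v s t a' b' {a, a', d, n, b} := by
  refine ad5_of (path_rz h.aa' k.vs l.sb l.bb') ⟨h.va.ne', h.sa.ne', h.ta.ne', h.ne.2.2.2.2.2.1⟩
    ⟨h.va'.ne', h.ne.1.symm, h.ne.2.2.1.symm, h.ab'.ne⟩
    ⟨l.ne.2.2.2.2.2.2, fun e => h.nsb (e ▸ l.vb.symm), fun e => h.ntb (e ▸ l.vb.symm), l.vb.ne'⟩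
    ⟨l.ne.1, fun e => h.nsb (e ▸ l.vs.symm), fun e => h.ntb (e ▸ l.vs.symm), l.vs.ne'⟩
    ⟨h.vb.ne', h.sb.ne', h.tb.ne', h.bb'.ne⟩

theorem nm_rt {v s t a b a' b' n n' c m m' : V} (h : T2 G v s t a b a' b')
    (k : T2 G a' n n' a c v b') (l : T2 G b' m m' b c v a') : Rt G a b v s t a' b' c m m' :=
  ⟨l.vb, l.vs, l.vt, l.st.ne, nm_ad h k l, nm_ad h k l.swap⟩

theorem ab_rt {v s t a b a' b' n n' c d : V} (h : T2 G v s t a b a' b')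
    (k : T2 G a' n n' b' c v a) (l : T2 G b' n n' a' d v b) : Rt G a b v s t a' b' d n n' :=
  ⟨l.vb, l.vs, l.vt, l.st.ne, ab_ad h k l, ab_ad h k.swap l.swap⟩

theorem nm_final [Fintype V] (hG : IsKConnected 6 G)
    {v s t a b a' b' n n' c m m' s₁ s₂ t₁ t₂ : V} (Aa' : At G a') (Ab' : At G b')
    (h : T2 G v s t a b a' b') (k : T2 G a' n n' a c v b') (l : T2 G b' m m' b c v a')
    (g : Cg G a b v s t a' b' s₁ s₂ t₁ t₂) : HasCompleteMinor 6 G := by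
  have r1 := nm_rt h k l
  have r2 := nm_rt h.rev l k
  refine lemmaB hG g r1 r2 ?_
  refine stepA_nm hG g r1.a1 r1.a2 r2.a1.swap r2.a2.swap (t2_all Aa' k) (t2_all Ab' l)
    k.st l.st k.vb l.vb l.vs l.vt k.vs k.vt k.sb.symm k.tb.symm l.sb.symm l.tb.symm
    (fun e => k.nsb e.symm) (fun e => k.ntb e.symm) (fun e => l.nsb e.symm)
    (fun e => l.ntb e.symm) ?_ ?_
  · exact ⟨fun e => h.nba' (e ▸ k.vs.symm), fun e => h.nba' (e ▸ k.vt.symm),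
      fun e => h.nab' (e ▸ l.vs.symm), fun e => h.nab' (e ▸ l.vt.symm), k.sa.ne, k.ta.ne,
      l.sa.ne, l.ta.ne⟩
  · exact ⟨⟨k.ne.1, fun e => h.nsa (e ▸ k.vs.symm), fun e => h.nta (e ▸ k.vs.symm)⟩,
      ⟨k.ne.2.2.1, fun e => h.nsa (e ▸ k.vt.symm), fun e => h.nta (e ▸ k.vt.symm)⟩,
      ⟨l.ne.1, fun e => h.nsb (e ▸ l.vs.symm), fun e => h.ntb (e ▸ l.vs.symm)⟩,
      ⟨l.ne.2.2.1, fun e => h.nsb (e ▸ l.vt.symm), fun e => h.ntb (e ▸ l.vt.symm)⟩⟩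

theorem ab_not {v s t a b a' b' n n' c d : V} (h : T2 G v s t a b a' b')
    (k : T2 G a' n n' b' c v a) (l : T2 G b' n n' a' d v b) :
    n ∉ ({a, a', d, n', b} : Set V) ∪ {v, s, t} := by
  rintro ((e | e | e | e | e) | (e | e | e))
  · exact k.ne.2.1 e
  · exact k.vs.ne' e
  · exact l.sb.ne e
  · exact k.st.ne e
  · exact l.ne.2.1 e
  · exact k.ne.1 e
  · exact h.nsa (e ▸ k.vs.symm)
  · have e' : n = t := e
    exact h.nta (e' ▸ k.vs.symm)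

theorem ab_final [Fintype V] (hG : IsKConnected 6 G)
    {v s t a b a' b' n n' c d s₁ s₂ t₁ t₂ : V} (Aa' : At G a')
    (h : T2 G v s t a b a' b') (k : T2 G a' n n' b' c v a) (l : T2 G b' n n' a' d v b)
    (g : Cg G a b v s t a' b' s₁ s₂ t₁ t₂) : HasCompleteMinor 6 G := by
  have r1 := ab_rt h k l
  have r2 := ab_rt h.rev l k
  refine lemmaB hG g r1 r2 ?_
  refine stepA_ab (c := c) hG g r1.a1 r1.a2 ?_ k.st.ne l.vs l.vt k.sb.symm k.tb.symm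
    (ab_not h k l) (ab_not h k.swap l.swap) l.vb.ne
  intro y hy
  rcases t2_all Aa' k y hy with e | e | e | e | e | e <;> simp [e]

end Pool.Agent.LI5
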