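import Pool.Agent.LI5.Defs
import Pool.Agent.LI4.KNb
import Pool.Agent.LI5.Case1S82

/-!
LI5: case 1: neither `p` nor `q` lies in `C` or in `P` (compare `LI4/KCase1`).

Proof.  `S := {y | y ∉ C ∧ ∃ u ∈ C, G.Adj y u}` has at least six elements (`LI4.nbhd6` with `v`: the
neighbours of `v` are `s, t ∉ C`, `a, b ∈ P`, `p, q ∉ C`).  By `o.star` with `P' := P`, `p` and `q` are not
in `S` (they are not in `P`), so no neighbour of `p` or `q` is in `C`: `w, l, l', z, r, r' ∉ C`.
So all the sets `{a, p, z, r, b}`, `{a, p, z, r', b}`, `{b, q, w, l, a}` are disjoint from `C` (`a, b ∈ P`).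
Choose `ρ ∈ {r, r'}` such that not both `z, ρ` are in `{w, l}` with `{z, ρ} = {w, l}`: precisely, such that
`{z, ρ} ∩ {w, l}` has at most one element (if `z = w` and `r = l`, or `z = l` and `r = w`, take `ρ := r'`,
otherwise `ρ := r`; note `z ≠ r, r'`? not needed: if `z ∈ {w, l}` and `ρ ∈ {w, l}` then either `z = ρ` or
`{z, ρ} = {w, l}`).  By `o.star` every `y ∈ S` with `y ≠ v, s, t` is in `{a, p, z, ρ, b} ∩ {b, q, w, l, a}`,
and it is not `p` or `q`; so it is `a`, `b` or in `{z, ρ} ∩ {w, l}`: at most three possible elements.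
`v ∉ S`.  So `S` has at most `3 + 2` elements.
-/

set_option autoImplicit false

namespace Pool.Agent.LI5

open Pool.Agent.LG6 Pool.Agent.LR5

variable {V : Type} {G : SimpleGraph V}

theorem case1 [Fintype V] (hG : IsKConnected 6 G) {a b v s t p q s₁ s₂ t₁ t₂ z r r' w l l' : V}
    (h : Cg G a b v s t p q s₁ s₂ t₁ t₂) (hR : Rt G a b v s t p q z r r')
    (hL : Rt G b a v s t q p w l l') {P C : Set V} (o : Op5 G a b v s t p q s₁ s₂ t₁ t₂ P C)
    (h1 : p ∉ C) (h2 : q ∉ C) (h3 : p ∉ P) (h4 : q ∉ P) : False := by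
  exact S82.case1 hG h hR hL o h1 h2 h3 h4

end Pool.Agent.LI5
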