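import Pool.Agent.LI5.Defs
import Pool.Agent.LI4.KNb

/-!
LI5: proof of case 2 (see `Case2.lean`).
-/

set_option autoImplicit false

namespace Pool.Agent.LI5

open Pool.Agent.LG6 Pool.Agent.LR5

variable {V : Type} {G : SimpleGraph V}

theorem case2_s88 [Fintype V] (hG : IsKConnected 6 G) {a b v s t p q s₁ s₂ t₁ t₂ z r r' : V}
    (h : Cg G a b v s t p q s₁ s₂ t₁ t₂) (hR : Rt G a b v s t p q z r r')
    {P C : Set V} (o : Op5 G a b v s t p q s₁ s₂ t₁ t₂ P C)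
    (h1 : p ∉ C) (h2 : q ∉ C) (h3 : p ∈ P) : False := by
  classical
  obtain ⟨hPc, haP, hbP, hvP, hsP, htP, hPpq⟩ := o.pa.adm
  have hqP : q ∉ P := fun h' => hPpq ⟨h3, h'⟩
  have hqv : q ≠ v := h.vq.ne'
  have hqC : ∀ y ∈ C, ¬ G.Adj q y := fun y hy hqy =>
    hqP (o.star P o.pa.adm o.pa.cP q h2 hqv h.qs h.qt ⟨y, hy, hqy⟩)
  have hzC : z ∉ C := fun h' => hqC _ h' hR.qz
  have hrC : r ∉ C := fun h' => hqC _ h' hR.qr
  have hrC' : r' ∉ C := fun h' => hqC _ h' hR.qr'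
  have haC : a ∉ C := fun h' => Set.disjoint_left.1 o.pa.cP h' haP
  have hbC : b ∉ C := fun h' => Set.disjoint_left.1 o.pa.cP h' hbP
  have hd1 : Disjoint C ({a, p, z, r, b} : Set V) := by
    rw [Set.disjoint_left]
    rintro y hy (rfl | rfl | rfl | rfl | rfl)
    · exact haC hy
    · exact h1 hy
    · exact hzC hy
    · exact hrC hy
    · exact hbC hy
  have hd2 : Disjoint C ({a, p, z, r', b} : Set V) := by
    rw [Set.disjoint_left]
    rintro y hy (rfl | rfl | rfl | rfl | rfl)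
    · exact haC hy
    · exact h1 hy
    · exact hzC hy
    · exact hrC' hy
    · exact hbC hy
  have hvC : ∀ y ∈ C, ¬ G.Adj v y := by
    intro y hy hvy
    rcases h.nv y hvy with rfl | rfl | rfl | rfl | rfl | rfl
    · exact o.pa.sC hy
    · exact o.pa.tC hy
    · exact haC hy
    · exact hbC hy
    · exact h1 hy
    · exact h2 hy
  -- a vertex with a neighbour in `C`
  have hnb : ∀ y w, w ∈ C → G.Adj y w → y ≠ s → y ≠ t →
      y ∈ C ∨ y = a ∨ y = p ∨ y = z ∨ y = b := by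
    intro y w hw hyw hys hyt
    by_cases hyC : y ∈ C
    · exact Or.inl hyC
    · have hyv : y ≠ v := by
        rintro rfl
        exact hvC w hw hyw
      have k1 := o.star _ hR.a1 hd1 y hyC hyv hys hyt ⟨w, hw, hyw⟩
      have k2 := o.star _ hR.a2 hd2 y hyC hyv hys hyt ⟨w, hw, hyw⟩
      right
      rcases k1 with k1 | k1 | k1 | k1 | k1
      · exact Or.inl k1
      · exact Or.inr (Or.inl k1)
      · exact Or.inr (Or.inr (Or.inl k1))
      · rcases k2 with k2 | k2 | k2 | k2 | k2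
        · exact Or.inl k2
        · exact Or.inr (Or.inl k2)
        · exact Or.inr (Or.inr (Or.inl k2))
        · exact absurd (k1.symm.trans k2) hR.rr
        · exact Or.inr (Or.inr (Or.inr k2))
      · exact Or.inr (Or.inr (Or.inr k1))
  have hs12 : (s₁ ∈ C ∨ s₁ = a ∨ s₁ = p ∨ s₁ = z ∨ s₁ = b) ∧
      (s₂ ∈ C ∨ s₂ = a ∨ s₂ = p ∨ s₂ = z ∨ s₂ = b) := by
    rcases o.pa.ts with k | k
    · exact ⟨Or.inl k, hnb s₂ s₁ k h.s12.symm h.ss₂.ne' h.ds₂.2.1⟩
    · exact ⟨hnb s₁ s₂ k h.s12 h.ss₁.ne' h.ds₁.2.1, Or.inl k⟩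
  have ht12 : (t₁ ∈ C ∨ t₁ = a ∨ t₁ = p ∨ t₁ = z ∨ t₁ = b) ∧
      (t₂ ∈ C ∨ t₂ = a ∨ t₂ = p ∨ t₂ = z ∨ t₂ = b) := by
    rcases o.pa.tt with k | k
    · exact ⟨Or.inl k, hnb t₂ t₁ k h.t12.symm h.dt₂.2.1 h.tt₂.ne'⟩
    · exact ⟨hnb t₁ t₂ k h.t12 h.dt₁.2.1 h.tt₁.ne', Or.inl k⟩
  -- the separator
  set S5 : Finset V := {a, b, p, z, v} with hS5
  have hmem : ∀ y, y ∈ S5 ↔ y = a ∨ y = b ∨ y = p ∨ y = z ∨ y = v := by
    intro y
    rw [hS5]
    simp only [Finset.mem_insert, Finset.mem_singleton]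
  have hcard : S5.card ≤ 5 := Finset.card_le_five
  have hq5 : q ∉ S5 := by
    rw [hmem]
    rintro (e | e | e | e | e)
    · exact h.nab ((e ▸ h.bq : G.Adj b a).symm)
    · exact h.bq.ne e.symm
    · exact h.pq.ne e.symm
    · exact hR.qz.ne e
    · exact hqv e
  obtain ⟨u, hu⟩ := o.pa.cc.ne
  have huS : u ∉ S5 := by
    rw [hmem]
    rintro (rfl | rfl | rfl | rfl | rfl)
    · exact haC hu
    · exact hbC hu
    · exact h1 hu
    · exact hzC hu
    · exact o.pa.vC hu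
  obtain ⟨g, w, hg, hw, hgw, hgM, hwM⟩ := cross (hG.2 S5 (by omega))
    {y | y ∉ C ∧ y ∉ S5 ∧ y ≠ s ∧ y ≠ t} (e := q) (f := u)
    (fun h' => hq5 (Finset.mem_coe.1 h')) (fun h' => huS (Finset.mem_coe.1 h'))
    ⟨h2, hq5, h.qs, h.qt⟩ (fun h' => h'.1 hu)
  obtain ⟨hg1, hg2, hgs, hgt⟩ := hgM
  have hwS : w ∉ S5 := fun h' => hw (Finset.mem_coe.2 h')
  have hg4 : ∀ {y : V}, (y ∈ C ∨ y = a ∨ y = p ∨ y = z ∨ y = b) → g ≠ y := by
    rintro y (k | rfl | rfl | rfl | rfl) rfl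
    · exact hg1 k
    · exact hg2 ((hmem _).2 (Or.inl rfl))
    · exact hg2 ((hmem _).2 (Or.inr (Or.inr (Or.inl rfl))))
    · exact hg2 ((hmem _).2 (Or.inr (Or.inr (Or.inr (Or.inl rfl)))))
    · exact hg2 ((hmem _).2 (Or.inr (Or.inl rfl)))
  have hgv : g ≠ v := fun e => hg2 ((hmem _).2 (Or.inr (Or.inr (Or.inr (Or.inr e)))))
  by_cases hwC : w ∈ C
  · exact hg4 (hnb g w hwC hgw hgs hgt) rfl
  · have hwx : w = s ∨ w = t := by
      by_contra hno
      push Not at hno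
      exact hwM ⟨hwC, hwS, hno.1, hno.2⟩
    rcases hwx with rfl | rfl
    · rcases h.ns g hgw.symm with e | e | e | e | e | e
      · exact hgv e
      · exact hgt e
      · exact hg4 (Or.inr (Or.inl rfl)) e
      · exact hg4 (Or.inr (Or.inr (Or.inr (Or.inr rfl)))) e
      · exact hg4 hs12.1 e
      · exact hg4 hs12.2 e
    · rcases h.nt g hgw.symm with e | e | e | e | e | e
      · exact hgv e
      · exact hgs e
      · exact hg4 (Or.inr (Or.inl rfl)) e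
      · exact hg4 (Or.inr (Or.inr (Or.inr (Or.inr rfl)))) e
      · exact hg4 ht12.1 e
      · exact hg4 ht12.2 e

end Pool.Agent.LI5
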