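import Pool.Agent.LI5.Defs
import Pool.Agent.LI4.KNb
import Pool.Agent.LI5.Case2S88

/-!
LI5: case 2: neither `p` nor `q` lies in `C`, and `p ∈ P` (compare `LI4/KCase2`).

Proof.  `q ∉ P` (`Ad5`).  `S := {y | y ∉ C ∧ ∃ u ∈ C, G.Adj y u}`, `6 ≤ S.ncard` (`LI4.nbhd6` with `v`).
By `o.star` with `P' := P`, `q ∉ S`, so `z, r, r' ∉ C`.  So `{a, p, z, r, b}` and `{a, p, z, r', b}` are
disjoint from `C` (`a, p, b ∈ P`), and by `o.star` every `y ∈ S`, `y ≠ v, s, t` is in both, hence in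
`{a, p, z, b}` (`r ≠ r'`).  So `S ⊆ {a, p, z, b, s, t}` and `6 ≤ S.ncard`: `S = {a, p, z, b, s, t}`, in
particular `s ∈ S`, `t ∈ S`, not needed: what is needed is that both elements of `{s₁, s₂}` are in
`C ∪ {a, p, z, b}`: one of them is in `C` (`o.pa.ts`), the other is adjacent to it, so it is in `C` or in
`S`, and it is not `s`, `t`.  The same for `t₁, t₂`.
Let `S5 := {a, b, p, z, v}`.  `V \ S5` is connected (`hG.2`), it contains `q` (`q ~ p, z, b, v`; `q = a` would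
give `b ~ a`) and meets `C`.  Let `M` be the set of the vertices not in `C ∪ S5 ∪ {s, t}`; `q ∈ M`.  There is
an edge `m m'` with `m ∈ M`, `m' ∉ M`, both outside `S5`.  If `m' ∈ C` then `m ∈ S ⊆ S5 ∪ {s, t}`,
contradiction.  If `m' = s`: by `h.ns` `m` is `v`, `t`, `a`, `b`, `s₁` or `s₂`, all in `C ∪ S5 ∪ {s, t}`,
contradiction.  `m' = t`: the same.
-/

set_option autoImplicit false

namespace Pool.Agent.LI5

open Pool.Agent.LG6 Pool.Agent.LR5

variable {V : Type} {G : SimpleGraph V}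

theorem case2 [Fintype V] (hG : IsKConnected 6 G) {a b v s t p q s₁ s₂ t₁ t₂ z r r' : V}
    (h : Cg G a b v s t p q s₁ s₂ t₁ t₂) (hR : Rt G a b v s t p q z r r')
    {P C : Set V} (o : Op5 G a b v s t p q s₁ s₂ t₁ t₂ P C)
    (h1 : p ∉ C) (h2 : q ∉ C) (h3 : p ∈ P) : False :=
  case2_s88 hG h hR o h1 h2 h3

end Pool.Agent.LI5
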