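import Pool.Agent.LR5.Defs2

/-!
LI5: a triangle `v, s, t` complete to two non-adjacent vertices `a`, `b` (configuration `Cg`), admissible
sets `Ad5` and the optimal pair `Op5`.
-/

set_option autoImplicit false

namespace Pool.Agent.LI5

open Pool.Agent.LG6 Pool.Agent.LR5

variable {V : Type} {G : SimpleGraph V}

/-- The triangle `v, s, t` is complete to `a` and to `b`; the other neighbours of `v` are `p`, adjacent to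
`a`, and `q`, adjacent to `b`; those of `s` are `s₁, s₂`, those of `t` are `t₁, t₂`. -/
structure Cg (G : SimpleGraph V) (a b v s t p q s₁ s₂ t₁ t₂ : V) : Prop where
  vs : G.Adj v s
  vt : G.Adj v t
  st : G.Adj s t
  av : G.Adj a v
  as : G.Adj a s
  at' : G.Adj a t
  bv : G.Adj b v
  bs : G.Adj b s
  bt : G.Adj b t
  nab : ¬ G.Adj a b
  ab : a ≠ b
  nv : ∀ y, G.Adj v y → y = s ∨ y = t ∨ y = a ∨ y = b ∨ y = p ∨ y = q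
  ns : ∀ y, G.Adj s y → y = v ∨ y = t ∨ y = a ∨ y = b ∨ y = s₁ ∨ y = s₂
  nt : ∀ y, G.Adj t y → y = v ∨ y = s ∨ y = a ∨ y = b ∨ y = t₁ ∨ y = t₂
  vp : G.Adj v p
  vq : G.Adj v q
  pq : G.Adj p q
  ap : G.Adj a p
  bq : G.Adj b q
  naq : ¬ G.Adj a q
  nbp : ¬ G.Adj b p
  ss₁ : G.Adj s s₁
  ss₂ : G.Adj s s₂
  s12 : G.Adj s₁ s₂
  tt₁ : G.Adj t t₁
  tt₂ : G.Adj t t₂
  t12 : G.Adj t₁ t₂
  /-- `s₁`, `s₂` are different from `v, t, a, b, p, q` -/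
  ds₁ : s₁ ≠ v ∧ s₁ ≠ t ∧ s₁ ≠ a ∧ s₁ ≠ b ∧ s₁ ≠ p ∧ s₁ ≠ q
  ds₂ : s₂ ≠ v ∧ s₂ ≠ t ∧ s₂ ≠ a ∧ s₂ ≠ b ∧ s₂ ≠ p ∧ s₂ ≠ q
  dt₁ : t₁ ≠ v ∧ t₁ ≠ s ∧ t₁ ≠ a ∧ t₁ ≠ b ∧ t₁ ≠ p ∧ t₁ ≠ q
  dt₂ : t₂ ≠ v ∧ t₂ ≠ s ∧ t₂ ≠ a ∧ t₂ ≠ b ∧ t₂ ≠ p ∧ t₂ ≠ q
  dst : s₁ ≠ t₁ ∧ s₁ ≠ t₂ ∧ s₂ ≠ t₁ ∧ s₂ ≠ t₂
  ps : p ≠ s
  pt : p ≠ t
  qs : q ≠ s
  qt : q ≠ t

theorem Cg.swap {a b v s t p q s₁ s₂ t₁ t₂ : V} (h : Cg G a b v s t p q s₁ s₂ t₁ t₂) :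
    Cg G b a v s t q p s₁ s₂ t₁ t₂ where
  vs := h.vs
  vt := h.vt
  st := h.st
  av := h.bv
  as := h.bs
  at' := h.bt
  bv := h.av
  bs := h.as
  bt := h.at'
  nab := fun h' => h.nab h'.symm
  ab := h.ab.symm
  nv := fun y hy => by rcases h.nv y hy with h | h | h | h | h | h <;> simp [h]
  ns := fun y hy => by rcases h.ns y hy with h | h | h | h | h | h <;> simp [h]
  nt := fun y hy => by rcases h.nt y hy with h | h | h | h | h | h <;> simp [h]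
  vp := h.vq
  vq := h.vp
  pq := h.pq.symm
  ap := h.bq
  bq := h.ap
  naq := h.nbp
  nbp := h.naq
  ss₁ := h.ss₁
  ss₂ := h.ss₂
  s12 := h.s12
  tt₁ := h.tt₁
  tt₂ := h.tt₂
  t12 := h.t12
  ds₁ := ⟨h.ds₁.1, h.ds₁.2.1, h.ds₁.2.2.2.1, h.ds₁.2.2.1, h.ds₁.2.2.2.2.2, h.ds₁.2.2.2.2.1⟩
  ds₂ := ⟨h.ds₂.1, h.ds₂.2.1, h.ds₂.2.2.2.1, h.ds₂.2.2.1, h.ds₂.2.2.2.2.2, h.ds₂.2.2.2.2.1⟩
  dt₁ := ⟨h.dt₁.1, h.dt₁.2.1, h.dt₁.2.2.2.1, h.dt₁.2.2.1, h.dt₁.2.2.2.2.2, h.dt₁.2.2.2.2.1⟩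
  dt₂ := ⟨h.dt₂.1, h.dt₂.2.1, h.dt₂.2.2.2.1, h.dt₂.2.2.1, h.dt₂.2.2.2.2.2, h.dt₂.2.2.2.2.1⟩
  dst := h.dst
  ps := h.qs
  pt := h.qt
  qs := h.ps
  qt := h.pt

/-- admissible sets: connected, containing `a` and `b`, disjoint from the triangle `v, s, t`, and not
containing both `p` and `q` -/
def Ad5 (G : SimpleGraph V) (a b v s t p q : V) (P : Set V) : Prop :=
  Cn G P ∧ a ∈ P ∧ b ∈ P ∧ v ∉ P ∧ s ∉ P ∧ t ∉ P ∧ ¬ (p ∈ P ∧ q ∈ P)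

theorem Ad5.swap {a b v s t p q : V} {P : Set V} (h : Ad5 G a b v s t p q P) :
    Ad5 G b a v s t q p P :=
  ⟨h.1, h.2.2.1, h.2.1, h.2.2.2.1, h.2.2.2.2.1, h.2.2.2.2.2.1, fun hi => h.2.2.2.2.2.2 ⟨hi.2, hi.1⟩⟩

/-- `z, r, r'` are adjacent to `q`, and `{a, p, z, r, b}`, `{a, p, z, r', b}` are admissible -/
structure Rt (G : SimpleGraph V) (a b v s t p q z r r' : V) : Prop where
  qz : G.Adj q z
  qr : G.Adj q r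
  qr' : G.Adj q r'
  rr : r ≠ r'
  a1 : Ad5 G a b v s t p q {a, p, z, r, b}
  a2 : Ad5 G a b v s t p q {a, p, z, r', b}

/-- a connected set `C`, disjoint from the admissible set `P` and from the triangle, containing one of
`s₁, s₂` and one of `t₁, t₂` -/
structure Pa5 (G : SimpleGraph V) (a b v s t p q s₁ s₂ t₁ t₂ : V) (P C : Set V) : Prop where
  adm : Ad5 G a b v s t p q P
  cc : Cn G C
  cP : Disjoint C P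
  vC : v ∉ C
  sC : s ∉ C
  tC : t ∉ C
  ts : s₁ ∈ C ∨ s₂ ∈ C
  tt : t₁ ∈ C ∨ t₂ ∈ C

theorem Pa5.swap {a b v s t p q s₁ s₂ t₁ t₂ : V} {P C : Set V}
    (h : Pa5 G a b v s t p q s₁ s₂ t₁ t₂ P C) : Pa5 G b a v s t q p s₁ s₂ t₁ t₂ P C :=
  ⟨h.adm.swap, h.cc, h.cP, h.vC, h.sC, h.tC, h.ts, h.tt⟩

/-- an optimal pair: `C` as large as possible, and then `P` as small as possible -/
structure Op5 (G : SimpleGraph V) (a b v s t p q s₁ s₂ t₁ t₂ : V) (P C : Set V) : Prop where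
  pa : Pa5 G a b v s t p q s₁ s₂ t₁ t₂ P C
  star : ∀ P', Ad5 G a b v s t p q P' → Disjoint C P' → ∀ y, y ∉ C → y ≠ v → y ≠ s → y ≠ t →
    (∃ z ∈ C, G.Adj y z) → y ∈ P'
  min : ∀ P' ⊆ P, Ad5 G a b v s t p q P' → P' = P

theorem Op5.swap {a b v s t p q s₁ s₂ t₁ t₂ : V} {P C : Set V}
    (h : Op5 G a b v s t p q s₁ s₂ t₁ t₂ P C) : Op5 G b a v s t q p s₁ s₂ t₁ t₂ P C :=
  ⟨h.pa.swap, fun P' hP' => h.star P' hP'.swap, fun P' hP hP' => h.min P' hP hP'.swap⟩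

end Pool.Agent.LI5
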