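import Pool.Agent.LI5.Defs
import Pool.Agent.LI4.KNb
import Pool.Agent.LI5.FinS5

/-!
LI5: the final model (compare `LI4/KFin`).

Proof.  `P \ {a}` is connected (`LI4.min_conn`, `o.min`: a connected subset of `P` containing `a` and `b`
is admissible).  The sets `{v}, {s}, {t}, {a}, P \ {a}, C` form a `K₆` model: `a ~ v, s, t`;
`b ∈ P \ {a}`, `b ~ v, s, t`; `C` is adjacent to `v` (`p ∈ C`), to `s` and `t` (`o.pa.ts`, `o.pa.tt`), to `a`
(`a ~ p`); `a` is adjacent to `P \ {a}` (`P` connected); `P \ {a}` is adjacent to `C`: if `q ∈ C` by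
`b ~ q`, otherwise `q` is adjacent to `p ∈ C`, so `q ∈ P` by `o.star` (`q ≠ v` adjacent, `q ≠ s, t`), and
`q ≠ a`.
-/

set_option autoImplicit false

namespace Pool.Agent.LI5

open Pool.Agent.LG6 Pool.Agent.LR5

variable {V : Type} {G : SimpleGraph V}

theorem fin5 {a b v s t p q s₁ s₂ t₁ t₂ : V} (h : Cg G a b v s t p q s₁ s₂ t₁ t₂) {P C : Set V}
    (o : Op5 G a b v s t p q s₁ s₂ t₁ t₂ P C) (hp : p ∈ C) : HasCompleteMinor 6 G :=
  fin5' h o hp

end Pool.Agent.LI5
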