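import Pool.Agent.LI5.Qv
import Pool.Agent.LI5.PairS

/-!
LI5: in `T2 G v s t a b a' b'`, if no two adjacent neighbours of `v` are claw centres, the hubs `s`, `t`
are `NC` and `a`, `b` are claw centres.

`t2_core`: `T2` at `s` and at `a` is impossible: the argument of `LI4/AClaw` (`role_s`, `role_a`, the vertex
`z`).

`hub_nc`: suppose `s` is not `NC`.  By `Tri1 G v` the neighbours `t, a, b` of `s` are `NC`.
`ty_cases` at `t`: `QV G t A B`: let `v ∈ A` (otherwise `q.swap`); `qv_hub` (`NC G a`) gives `b ∈ A`, `a ∈ B`;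
`qv_hub` for `h.rev` (`NC G b`) gives `a ∈ A`; contradiction to `q.disj`.  So `T2` at `t`.  `ty_cases` at
`a`: `QV` is impossible by `qv_a` (`NC G t`; `v ∈ A` or `q.swap`).  So `T2` at `a`, and `t2_core` for `h.swap`.

`a_not_nc`: suppose `NC G a`.  `qv_a` (`NC G t`): `T2` at `a`.  If `T2` at `s`: `t2_core`.  If `T2` at `t`:
`t2_core` for `h.swap`.  So both are `QV`: `QV G s A B` with `v ∈ A`: by `qv_hub` for `h.swap`: `t, b ∈ A`,
`a ∈ B`; let `a₁, a₂` be the other two elements of `B`: adjacent to `a` and `s`, not adjacent to `t`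
(`qv_disj` with `v a`), different from `v, t, b, s, a'` (`a'` is not adjacent to `s`).  `QV G t A' B'`:
`g₁, g₂` adjacent to `a` and `t`, not adjacent to `s`.  So `v, s, t, a', a₁, a₂, g₁` are seven different
neighbours of `a` (`At.seven`).
-/

set_option autoImplicit false

namespace Pool.Agent.LI5

open Pool.Agent.LG6 Pool.Agent.LR5 Pool.Agent.LD6 Pool.Agent.LI4

variable {V : Type} {G : SimpleGraph V}

theorem t2_core [Fintype V] (hG : IsKConnected 6 G) (hm : ¬ HasCompleteMinor 6 G)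
    {v s t a b a' b' : V} (nv : NC G v) (ns : NC G s) (na : NC G a) (h : T2 G v s t a b a' b')
    (hs : ∃ p q x y x' y', T2 G s p q x y x' y') (ha : ∃ p q x y x' y', T2 G a p q x y x' y') :
    False := by
  obtain ⟨_, _, _, _, _, _, hs⟩ := hs
  obtain ⟨_, _, _, _, _, _, ha⟩ := ha
  have Av := At.mk' hG hm nv
  have As := At.mk' hG hm ns
  have Aa := At.mk' hG hm na
  obtain ⟨e, e', hs'⟩ := role_s Av As h hs
  obtain ⟨z, z', ha'⟩ := role_a Av Aa h ha
  rcases t2_all As hs' z ha'.sb with hz | hz | hz | hz | hz | hz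
  · exact ha'.ne.2.2.2.2.1 hz.symm
  · exact ha'.tb.ne hz.symm
  · exact ha'.vb.ne hz.symm
  · exact h.nab (hz ▸ ha'.vb)
  · exact hs'.nta (hz ▸ ha'.tb)
  · exact hs'.ntb (hz ▸ ha'.tb)

theorem hub_nc [Fintype V] (hG : IsKConnected 6 G) (hm : ¬ HasCompleteMinor 6 G)
    (hA : ¬ ∃ p, NoMin G {p}) {v s t a b a' b' : V} (nv : NC G v) (h : T2 G v s t a b a' b')
    (hT : Tri1 G v) : NC G s := by
  by_contra ns
  have nt : NC G t := (hT s t h.vs h.vt h.st).resolve_left ns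
  have na : NC G a := (hT s a h.vs h.va h.sa).resolve_left ns
  have nb : NC G b := (hT s b h.vs h.vb h.sb).resolve_left ns
  have Av := At.mk' hG hm nv
  have key : ∀ A B : Finset V, QV G t A B → v ∈ A → False := by
    intro A B q hv
    have h1 := qv_hub hG hm Av h q hv na
    have h2 := qv_hub hG hm Av h.rev q hv nb
    exact q.disj a h2.2.1 h1.2.2
  have h2t := (ty_cases hG hm hA nt).resolve_right fun ⟨A, B, q⟩ => by
    rcases (q.nbr v).1 h.vt.symm with hv | hv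
    · exact key A B q hv
    · exact key B A q.swap hv
  have h2a := (ty_cases hG hm hA na).resolve_right fun ⟨A, B, q⟩ => by
    rcases (q.nbr v).1 h.va.symm with hv | hv
    · exact qv_a hG hm Av h q hv nt
    · exact qv_a hG hm Av h q.swap hv nt
  exact t2_core hG hm nv nt na h.swap h2t h2a

theorem two_more [Fintype V] (hG : IsKConnected 6 G) (hm : ¬ HasCompleteMinor 6 G)
    {v s t a b a' b' : V} (Av : At G v) (h : T2 G v s t a b a' b') (na : NC G a) {A B : Finset V}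
    (q : QV G t A B) : ∃ a₁ a₂, a₁ ≠ a₂ ∧ G.Adj t a₁ ∧ G.Adj t a₂ ∧ G.Adj a a₁ ∧ G.Adj a a₂ ∧
      ¬ G.Adj s a₁ ∧ ¬ G.Adj s a₂ ∧ a₁ ≠ v ∧ a₁ ≠ s ∧ a₂ ≠ v ∧ a₂ ≠ s := by
  classical
  have key : ∀ A B : Finset V, QV G t A B → v ∈ A → ∃ a₁ a₂, a₁ ≠ a₂ ∧ G.Adj t a₁ ∧ G.Adj t a₂ ∧
      G.Adj a a₁ ∧ G.Adj a a₂ ∧ ¬ G.Adj s a₁ ∧ ¬ G.Adj s a₂ ∧ a₁ ≠ v ∧ a₁ ≠ s ∧ a₂ ≠ v ∧
        a₂ ≠ s := by
    intro A B q hv
    obtain ⟨hs, -, ha⟩ := qv_hub hG hm Av h q hv na
    have h2 : (B.erase a).card = 2 := by rw [Finset.card_erase_of_mem ha, q.hB]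
    obtain ⟨a₁, a₂, hne, he⟩ := Finset.card_eq_two.1 h2
    have m1 : a₁ ∈ B.erase a := by rw [he]; exact Finset.mem_insert_self _ _
    have m2 : a₂ ∈ B.erase a := by
      rw [he]; exact Finset.mem_insert_of_mem (Finset.mem_singleton_self _)
    rw [Finset.mem_erase] at m1 m2
    have f : ∀ x ∈ B, x ≠ a → G.Adj t x ∧ G.Adj a x ∧ ¬ G.Adj s x ∧ x ≠ v ∧ x ≠ s := by
      intro x hx hxa
      refine ⟨(q.nbr x).2 (Or.inr hx), q.cB a ha x hx hxa.symm, ?_, ?_, ?_⟩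
      · intro h'
        exact qv_disj hG hm q hv hs ha hx h.vs.ne hxa.symm h.va h'
      · rintro rfl
        exact q.disj _ hv hx
      · rintro rfl
        exact q.disj _ hs hx
    obtain ⟨c1, c2, c3, c4, c5⟩ := f a₁ m1.2 m1.1
    obtain ⟨d1, d2, d3, d4, d5⟩ := f a₂ m2.2 m2.1
    exact ⟨a₁, a₂, hne, c1, d1, c2, d2, c3, d3, c4, c5, d4, d5⟩
  rcases (q.nbr v).1 h.vt.symm with hv | hv
  · exact key A B q hv
  · exact key B A q.swap hv

theorem a_not_nc [Fintype V] (hG : IsKConnected 6 G) (hm : ¬ HasCompleteMinor 6 G)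
    (hA : ¬ ∃ p, NoMin G {p}) {v s t a b a' b' : V} (nv : NC G v) (h : T2 G v s t a b a' b')
    (ns : NC G s) (nt : NC G t) : ¬ NC G a := by
  intro na
  have Av := At.mk' hG hm nv
  have Aa := At.mk' hG hm na
  have hqa : ∀ A B, ¬ QV G a A B := by
    intro A B q
    rcases (q.nbr v).1 h.va.symm with hv | hv
    · exact qv_a hG hm Av h q hv nt
    · exact qv_a hG hm Av h q.swap hv nt
  have h2a := (ty_cases hG hm hA na).resolve_right fun ⟨A, B, q⟩ => hqa A B q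
  rcases ty_cases hG hm hA ns with hs | ⟨A, B, q⟩
  · exact t2_core hG hm nv ns na h hs h2a
  rcases ty_cases hG hm hA nt with ht | ⟨A', B', q'⟩
  · exact t2_core hG hm nv nt na h.swap ht h2a
  obtain ⟨a₁, a₂, e12, s1, s2, e1, e2, t1, t2, n1, n2, n3, n4⟩ := two_more hG hm Av h.swap na q
  obtain ⟨g₁, -, -, u1, -, f1, -, w1, -, m1, m2, -, -⟩ := two_more hG hm Av h na q'
  refine Aa.seven h.va.symm h.sa.symm h.ta.symm h.aa' e1 e2 f1 ⟨h.vs.ne, h.vt.ne, h.va'.ne,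
    n1.symm, n3.symm, m1.symm, h.st.ne, h.ne.1, s1.ne, s2.ne, m2.symm, h.ne.2.2.1, n2.symm,
    n4.symm, u1.ne, ?_, ?_, ?_, e12, ?_, ?_⟩
  · rintro rfl
    exact h.nsa s1
  · rintro rfl
    exact h.nsa s2
  · rintro rfl
    exact h.nta u1
  · rintro rfl
    exact t1 u1
  · rintro rfl
    exact t2 u1

end Pool.Agent.LI5
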