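import Pool.Agent.LI5.Qv
import Pool.Agent.LI4.Role

/-!
LI5: proofs of `t2_core` and `hub_nc` (see LI5/Hubs).
-/

set_option autoImplicit false

namespace Pool.Agent.LI5

open Pool.Agent.LG6 Pool.Agent.LR5 Pool.Agent.LD6 Pool.Agent.LI4

variable {V : Type} {G : SimpleGraph V}

theorem t2_core25 [Fintype V] (hG : IsKConnected 6 G) (hm : ¬ HasCompleteMinor 6 G)
    {v s t a b a' b' : V} (nv : NC G v) (ns : NC G s) (na : NC G a) (h : T2 G v s t a b a' b')
    (hs : ∃ p q x y x' y', T2 G s p q x y x' y') (ha : ∃ p q x y x' y', T2 G a p q x y x' y') :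
    False := by
  have Av := At.mk' hG hm nv
  have Aa := At.mk' hG hm na
  have As := At.mk' hG hm ns
  obtain ⟨_, _, _, _, _, _, hs⟩ := hs
  obtain ⟨_, _, _, _, _, _, ha⟩ := ha
  obtain ⟨e, e', hs'⟩ := role_s Av As h hs
  obtain ⟨z, z', ha'⟩ := role_a Av Aa h ha
  rcases t2_all As hs' z ha'.sb with hz | hz | hz | hz | hz | hz
  · exact ha'.ne.2.2.2.2.1 hz.symm
  · exact ha'.tb.ne hz.symm
  · exact ha'.vb.ne hz.symm
  · exact h.nab (hz ▸ ha'.vb)
  · exact hs'.nta (hz ▸ ha'.tb)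
  · exact hs'.ntb (hz ▸ ha'.tb)

theorem hub_nc25 [Fintype V] (hG : IsKConnected 6 G) (hm : ¬ HasCompleteMinor 6 G)
    (hA : ¬ ∃ p, NoMin G {p}) {v s t a b a' b' : V} (nv : NC G v) (h : T2 G v s t a b a' b')
    (hT : Tri1 G v) : NC G s := by
  by_contra ns
  have nt : NC G t := (hT s t h.vs h.vt h.st).resolve_left ns
  have na : NC G a := (hT s a h.vs h.va h.sa).resolve_left ns
  have nb : NC G b := (hT s b h.vs h.vb h.sb).resolve_left ns
  have Av := At.mk' hG hm nv
  have key : ∀ A B : Finset V, QV G t A B → v ∈ A → False := by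
    intro A B q hv
    obtain ⟨-, -, haB⟩ := qv_hub hG hm Av h q hv na
    obtain ⟨-, haA, -⟩ := qv_hub hG hm Av h.rev q hv nb
    exact q.disj a haA haB
  rcases ty_cases hG hm hA nt with ht | ⟨A, B, q⟩
  · rcases ty_cases hG hm hA na with ha | ⟨A, B, q⟩
    · exact t2_core25 hG hm nv nt na h.swap ht ha
    · rcases (q.nbr v).1 h.va.symm with hv | hv
      · exact qv_a hG hm Av h q hv nt
      · exact qv_a hG hm Av h q.swap hv nt
  · rcases (q.nbr v).1 h.vt.symm with hv | hv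
    · exact key A B q hv
    · exact key B A q.swap hv

end Pool.Agent.LI5
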