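import Pool.Agent.LI5.Opt
import Pool.Agent.LI5.Case1
import Pool.Agent.LI5.Case2
import Pool.Agent.LI5.Fin

/-!
LI5, step B: from a first pair to the `K₆` minor.
-/

set_option autoImplicit false

namespace Pool.Agent.LI5

open Pool.Agent.LG6 Pool.Agent.LR5

variable {V : Type} {G : SimpleGraph V}

theorem lemmaB [Fintype V] (hG : IsKConnected 6 G) {a b v s t p q s₁ s₂ t₁ t₂ z r r' w l l' : V}
    (h : Cg G a b v s t p q s₁ s₂ t₁ t₂) (hR : Rt G a b v s t p q z r r')
    (hL : Rt G b a v s t q p w l l') (hA : ∃ P C, Pa5 G a b v s t p q s₁ s₂ t₁ t₂ P C) :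
    HasCompleteMinor 6 G := by
  obtain ⟨P, C, hPC⟩ := hA
  obtain ⟨P, C, o⟩ := exists_op5 hPC
  by_cases h1 : p ∈ C
  · exact fin5 h o h1
  · by_cases h2 : q ∈ C
    · exact fin5 h.swap o.swap h2
    · exfalso
      by_cases h3 : p ∈ P
      · exact case2 hG h hR o h1 h2 h3
      · by_cases h4 : q ∈ P
        · exact case2 hG h.swap hL o.swap h2 h1 h4
        · exact case1 hG h hR hL o h1 h2 h3 h4

end Pool.Agent.LI5
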