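import Pool.Agent.LI5.Hubs
import Pool.Agent.LI5.Asm

/-!
LI5: the main theorem: if `v` is the centre of no claw and no two adjacent neighbours of `v` are both
centres of claws, then `G` is apex.
-/

set_option autoImplicit false

namespace Pool.Agent.LI5

open Pool.Agent.LG6 Pool.Agent.LR5 Pool.Agent.LD6 Pool.Agent.LI4

variable {V : Type} {G : SimpleGraph V}

theorem main [Fintype V] (hG : IsKConnected 6 G) (hm : ¬ HasCompleteMinor 6 G) {v : V}
    (hv : NC G v) (hT : Tri1 G v) : ∃ p, NoMin G {p} := by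
  classical
  by_contra hA
  obtain ⟨⟨s, t, a, b, a', b', h⟩, -⟩ := typ_of hG hm hA hT hv
  have Av := At.mk' hG hm hv
  have ns := hub_nc hG hm hA hv h hT
  have nt := hub_nc hG hm hA hv h.swap hT
  have na := a_not_nc hG hm hA hv h ns nt
  have nb := a_not_nc hG hm hA hv h.rev ns nt
  have na' : NC G a' := (hT a a' h.va h.va' h.aa').resolve_left na
  have nb' : NC G b' := (hT b b' h.vb h.vb' h.bb').resolve_left nb
  have Aa' := At.mk' hG hm na'
  have Ab' := At.mk' hG hm nb'
  have ca : ∀ y, G.Adj v y → G.Adj a' y → y = a ∨ y = b' := by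
    intro y hy hy'
    rcases t2_all Av h y hy with e | e | e | e | e | e
    · exact absurd (e ▸ hy'.symm) h.nsa
    · exact absurd (e ▸ hy'.symm) h.nta
    · exact Or.inl e
    · exact absurd (e ▸ hy'.symm) h.nba'
    · exact absurd e hy'.ne'
    · exact Or.inr e
  have cb : ∀ y, G.Adj v y → G.Adj b' y → y = b ∨ y = a' := by
    intro y hy hy'
    rcases t2_all Av h y hy with e | e | e | e | e | e
    · exact absurd (e ▸ hy'.symm) h.nsb
    · exact absurd (e ▸ hy'.symm) h.ntb
    · exact absurd (e ▸ hy'.symm) h.nab'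
    · exact Or.inl e
    · exact Or.inr e
    · exact absurd e hy'.ne'
  have t1 : ∃ s t a b x y, T2 G a' s t a b x y := by
    refine ty_two hG hm hA na' h.va'.symm ?_
    intro y z h1 h2 h3 h4 hyz
    rcases ca y h3 h1 with rfl | rfl <;> rcases ca z h4 h2 with rfl | rfl
    · exact hyz.ne rfl
    · exact h.nab' hyz
    · exact h.nab' hyz.symm
    · exact hyz.ne rfl
  have t2 : ∃ s t a b x y, T2 G b' s t a b x y := by
    refine ty_two hG hm hA nb' h.vb'.symm ?_
    intro y z h1 h2 h3 h4 hyz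
    rcases cb y h3 h1 with rfl | rfl <;> rcases cb z h4 h2 with rfl | rfl
    · exact hyz.ne rfl
    · exact h.nba' hyz
    · exact h.nba' hyz.symm
    · exact hyz.ne rfl
  obtain ⟨s₁, s₂, t₁, t₂, g⟩ := exists_cg hG hm hA Av h ns nt
  rcases both Av Aa' Ab' h t1 t2 with ⟨c, n, n', m, m', k, l⟩ | ⟨c, d, n, n', k, l⟩
  · exact hm (nm_final hG Aa' Ab' h k l g)
  · exact hm (ab_final hG Aa' h k l g)

end Pool.Agent.LI5
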