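import Pool.Agent.LI5.TyTwo

/-!
LI5: `QV` at a neighbour of a `T2` vertex `v` (helper89).
-/

set_option autoImplicit false

namespace Pool.Agent.LI5

open Pool.Agent.LG6 Pool.Agent.LR5 Pool.Agent.LD6 Pool.Agent.LI4

variable {V : Type} {G : SimpleGraph V}

theorem qvS89_two {A : Finset V} {v : V} (hA : A.card = 3) (hv : v ∈ A) :
    ∃ y z, y ∈ A ∧ z ∈ A ∧ y ≠ v ∧ z ≠ v ∧ y ≠ z ∧ ∀ x ∈ A, x = v ∨ x = y ∨ x = z := by
  classical
  have h1 : (A.erase v).card = 2 := by
    rw [Finset.card_erase_of_mem hv, hA]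
  obtain ⟨y, z, hyz, he⟩ := Finset.card_eq_two.1 h1
  have hy : y ∈ A.erase v := by rw [he]; exact Finset.mem_insert_self _ _
  have hz : z ∈ A.erase v := by
    rw [he]
    exact Finset.mem_insert_of_mem (Finset.mem_singleton_self _)
  rw [Finset.mem_erase] at hy hz
  refine ⟨y, z, hy.2, hz.2, hy.1, hz.1, hyz, fun x hx => ?_⟩
  by_cases hxv : x = v
  · exact Or.inl hxv
  · have h2 : x ∈ A.erase v := Finset.mem_erase.2 ⟨hxv, hx⟩
    rw [he, Finset.mem_insert, Finset.mem_singleton] at h2
    exact Or.inr h2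

theorem qv_hub_S89 [Fintype V] (hG : IsKConnected 6 G) (hm : ¬ HasCompleteMinor 6 G)
    {v s t a b a' b' : V} (Av : At G v) (h : T2 G v s t a b a' b') {A B : Finset V}
    (q : QV G t A B) (hv : v ∈ A) (na : NC G a) : s ∈ A ∧ b ∈ A ∧ a ∈ B := by
  have hcom : ∀ x, G.Adj v x → G.Adj t x → x = s ∨ x = a ∨ x = b := by
    intro x h1 h2
    rcases t2_all Av h x h1 with e | e | e | e | e | e
    · exact Or.inl e
    · exact absurd e h2.ne.symm
    · exact Or.inr (Or.inl e)
    · exact Or.inr (Or.inr e)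
    · exact absurd (e ▸ h2) h.nta
    · exact absurd (e ▸ h2) h.ntb
  obtain ⟨y, z, hy, hz, hyv, hzv, hyz, hall⟩ := qvS89_two q.hA hv
  have ny := hcom y (q.cA v hv y hy hyv.symm) ((q.nbr y).2 (Or.inl hy))
  have nz := hcom z (q.cA v hv z hz hzv.symm) ((q.nbr z).2 (Or.inl hz))
  have hadj := q.cA y hy z hz hyz
  -- the case `s, a ∈ A`
  have bad : s ∈ A → a ∈ A → (∀ x ∈ A, x = v ∨ x = s ∨ x = a) → False := by
    intro hs ha hall
    have hbA : b ∉ A := by
      intro hb
      rcases hall b hb with e | e | e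
      · exact h.vb.ne e.symm
      · exact h.sb.ne e.symm
      · exact h.ne.2.2.2.2.1 e.symm
    have hbB : b ∈ B := by
      rcases (q.nbr b).1 h.tb with e | e
      · exact absurd e hbA
      · exact e
    obtain ⟨w, hw, haw⟩ := qv_nc hG hm q ha na
    have hwb : w ≠ b := fun e => h.nab (e ▸ haw)
    exact qv_disj hG hm q ha hv hw hbB h.va.ne.symm hwb haw h.vb
  have good : s ∈ A → b ∈ A → (∀ x ∈ A, x = v ∨ x = s ∨ x = b) → s ∈ A ∧ b ∈ A ∧ a ∈ B := by
    intro hs hb hall
    refine ⟨hs, hb, ?_⟩
    rcases (q.nbr a).1 h.ta with e | e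
    · exfalso
      rcases hall a e with e | e | e
      · exact h.va.ne e.symm
      · exact h.sa.ne e.symm
      · exact h.ne.2.2.2.2.1 e
    · exact e
  rcases ny with e1 | e1 | e1 <;> rcases nz with e2 | e2 | e2
  · exact absurd (e1.trans e2.symm) hyz
  · subst e1
    subst e2
    exact (bad hy hz hall).elim
  · subst e1
    subst e2
    exact good hy hz hall
  · subst e1
    subst e2
    exact (bad hz hy fun x hx => by
      rcases hall x hx with e | e | e
      · exact Or.inl e
      · exact Or.inr (Or.inr e)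
      · exact Or.inr (Or.inl e)).elim
  · exact absurd (e1.trans e2.symm) hyz
  · subst e1
    subst e2
    exact absurd hadj h.nab
  · subst e1
    subst e2
    exact good hz hy fun x hx => by
      rcases hall x hx with e | e | e
      · exact Or.inl e
      · exact Or.inr (Or.inr e)
      · exact Or.inr (Or.inl e)
  · subst e1
    subst e2
    exact absurd hadj.symm h.nab
  · exact absurd (e1.trans e2.symm) hyz

theorem qv_a_S89 [Fintype V] (hG : IsKConnected 6 G) (hm : ¬ HasCompleteMinor 6 G)
    {v s t a b a' b' : V} (Av : At G v) (h : T2 G v s t a b a' b') {A B : Finset V}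
    (q : QV G a A B) (hv : v ∈ A) (nt : NC G t) : False := by
  have hcom : ∀ x, G.Adj v x → G.Adj a x → x = s ∨ x = t ∨ x = a' := by
    intro x h1 h2
    rcases t2_all Av h x h1 with e | e | e | e | e | e
    · exact Or.inl e
    · exact Or.inr (Or.inl e)
    · exact absurd e h2.ne.symm
    · exact absurd (e ▸ h2) h.nab
    · exact Or.inr (Or.inr e)
    · exact absurd (e ▸ h2) h.nab'
  obtain ⟨y, z, hy, hz, hyv, hzv, hyz, hall⟩ := qvS89_two q.hA hv
  have ny := hcom y (q.cA v hv y hy hyv.symm) ((q.nbr y).2 (Or.inl hy))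
  have nz := hcom z (q.cA v hv z hz hzv.symm) ((q.nbr z).2 (Or.inl hz))
  have hadj := q.cA y hy z hz hyz
  have bad : t ∈ A → (∀ x ∈ A, x = v ∨ x = s ∨ x = t) → False := by
    intro ht hall
    have haA : a' ∉ A := by
      intro ha
      rcases hall a' ha with e | e | e
      · exact h.va'.ne e.symm
      · exact h.ne.1 e.symm
      · exact h.ne.2.2.1 e.symm
    have haB : a' ∈ B := by
      rcases (q.nbr a').1 h.aa' with e | e
      · exact absurd e haA
      · exact e
    obtain ⟨w, hw, htw⟩ := qv_nc hG hm q ht nt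
    have hwa : w ≠ a' := fun e => h.nta (e ▸ htw)
    exact qv_disj hG hm q ht hv hw haB h.vt.ne.symm hwa htw h.va'
  rcases ny with e1 | e1 | e1 <;> rcases nz with e2 | e2 | e2
  · exact absurd (e1.trans e2.symm) hyz
  · subst e1
    subst e2
    exact bad hz hall
  · subst e1
    subst e2
    exact absurd hadj h.nsa
  · subst e1
    subst e2
    exact bad hy fun x hx => by
      rcases hall x hx with e | e | e
      · exact Or.inl e
      · exact Or.inr (Or.inr e)
      · exact Or.inr (Or.inl e)
  · exact absurd (e1.trans e2.symm) hyz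
  · subst e1
    subst e2
    exact absurd hadj h.nta
  · subst e1
    subst e2
    exact absurd hadj.symm h.nsa
  · subst e1
    subst e2
    exact absurd hadj.symm h.nta
  · exact absurd (e1.trans e2.symm) hyz

end Pool.Agent.LI5
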