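import Pool.Agent.LI5.TyTwo
import Pool.Agent.LI5.QvS89

/-!
LI5: `QV` at a neighbour of a `T2` vertex `v`.  Let `h : T2 G v s t a b a' b'`.

`qv_hub`: `QV G t A B`, `v ∈ A`, `a` is `NC`: then `s, b ∈ A` and `a ∈ B`.  Proof: the two other elements
of `A` are adjacent common neighbours of `v` and `t`, hence (`t2_all` at `v`; `t` is not adjacent to `a'`,
`b'`) in `{s, a, b}`; `a` is not adjacent to `b`, so they are `s, a` or `s, b`.  If `s, a`: `b ∈ B`
(`b` is a neighbour of `t`, and not in `A` since `b ≠ v, s, a`), `v ~ b`; `qv_nc` for `a` gives `z ∈ B`,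
`a ~ z`, `z ≠ b`; `qv_disj` for `a z` and `v b`: contradiction.  So they are `s, b`, and `a`, a neighbour
of `t` not in `A`, is in `B`.

`qv_a`: `QV G a A B`, `v ∈ A`, `t` is `NC`: impossible.  Proof: the two other elements of `A` are adjacent
common neighbours of `v` and `a`: they are in `{s, t, a'}` (`a` is not adjacent to `b`, `b'`), and `a'` is
adjacent to neither `s` nor `t`: so they are `s, t`.  `a' ∈ B`, `v ~ a'`; `qv_nc` for `t`: `z ∈ B`, `t ~ z`,
`z ≠ a'`; `qv_disj` for `v a'` and `t z`.

`pair_s`: the neighbourhood of the `NC` vertex `s`.  If `T2` at `s`: `role_s` gives `T2 G s v t a b e e'`,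
take `s₁ := e`, `s₂ := e'` (`t2_all` at `s`).  If `QV G s A B`, `v ∈ A` (otherwise `q.swap`): the other
elements of `A` are adjacent common neighbours of `v` and `s`: `t, a` or `t, b`.  If `t, a`: `b ∈ B`, let
`s₁, s₂` be the other elements of `B`; `t` is not adjacent to `s₁` since otherwise `t s₁` and `v b` are
disjoint (`qv_disj`); the same for `s₂`.  If `t, b`: the same with `a` instead of `b`.
-/

set_option autoImplicit false

namespace Pool.Agent.LI5

open Pool.Agent.LG6 Pool.Agent.LR5 Pool.Agent.LD6 Pool.Agent.LI4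

variable {V : Type} {G : SimpleGraph V}

theorem qv_hub [Fintype V] (hG : IsKConnected 6 G) (hm : ¬ HasCompleteMinor 6 G)
    {v s t a b a' b' : V} (Av : At G v) (h : T2 G v s t a b a' b') {A B : Finset V}
    (q : QV G t A B) (hv : v ∈ A) (na : NC G a) : s ∈ A ∧ b ∈ A ∧ a ∈ B := by
  exact qv_hub_S89 hG hm Av h q hv na

theorem qv_a [Fintype V] (hG : IsKConnected 6 G) (hm : ¬ HasCompleteMinor 6 G)
    {v s t a b a' b' : V} (Av : At G v) (h : T2 G v s t a b a' b') {A B : Finset V}
    (q : QV G a A B) (hv : v ∈ A) (nt : NC G t) : False := by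
  exact qv_a_S89 hG hm Av h q hv nt

end Pool.Agent.LI5
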