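import Pool.Agent.LI4.DefsT

/-!
LI5/RoleQS30: the role of `v` in the neighbourhood of `a'` (`role_p`); compare LI4/RoleP.
-/

set_option autoImplicit false

namespace Pool.Agent.LI5

open Pool.Agent.LG6 Pool.Agent.LR5 Pool.Agent.LD6 Pool.Agent.LI4

variable {V : Type} {G : SimpleGraph V}

theorem role_pS30 {v s t a b a' b' p q x y x' y' : V} (Av : At G v) (Aa' : At G a')
    (h : T2 G v s t a b a' b') (h' : T2 G a' p q x y x' y') :
    (∃ n n' c, T2 G a' n n' a c v b') ∨ ∃ n n' c, T2 G a' n n' b' c v a := by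
  have hcom : ∀ z, G.Adj v z → G.Adj a' z → z = a ∨ z = b' := by
    intro z h1 h2
    rcases t2_all Av h z h1 with e | e | e | e | e | e
    · exact absurd (e ▸ h2.symm) h.nsa
    · exact absurd (e ▸ h2.symm) h.nta
    · exact Or.inl e
    · exact absurd (e ▸ h2.symm) h.nba'
    · exact absurd e h2.ne.symm
    · exact Or.inr e
  have h3 : ∀ z1 z2 z3, G.Adj v z1 → G.Adj v z2 → G.Adj v z3 → G.Adj a' z1 → G.Adj a' z2 →
      G.Adj a' z3 → z1 ≠ z2 → z1 ≠ z3 → z2 ≠ z3 → False := by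
    intro z1 z2 z3 a1 a2 a3 b1 b2 b3 n12 n13 n23
    rcases hcom z1 a1 b1 with e1 | e1 <;> rcases hcom z2 a2 b2 with e2 | e2 <;>
      rcases hcom z3 a3 b3 with e3 | e3
    all_goals first
      | exact n12 (e1.trans e2.symm)
      | exact n13 (e1.trans e3.symm)
      | exact n23 (e2.trans e3.symm)
  have key : ∀ {p q x y x' y' : V}, T2 G a' p q x y x' y' → v = x' →
      (∃ n n' c, T2 G a' n n' a c v b') ∨ ∃ n n' c, T2 G a' n n' b' c v a := by
    intro p q x y x' y' h1 e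
    subst e
    have hxy : x ≠ y' := h1.ne.2.2.2.2.2.1
    rcases hcom x h1.aa'.symm h1.va with e1 | e1 <;> rcases hcom y' h1.ab' h1.vb' with e2 | e2
    · exact absurd (e1.trans e2.symm) hxy
    · subst e1
      subst e2
      exact Or.inl ⟨p, q, y, h1⟩
    · subst e1
      subst e2
      exact Or.inr ⟨p, q, y, h1⟩
    · exact absurd (e1.trans e2.symm) hxy
  rcases t2_all Aa' h' v h.va'.symm with e | e | e | e | e | e
  · subst e
    exact (h3 q x y h'.st h'.sa h'.sb h'.vt h'.va h'.vb h'.ta.ne h'.tb.ne h'.ne.2.2.2.2.1).elim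
  · subst e
    exact (h3 p x y h'.st.symm h'.ta h'.tb h'.vs h'.va h'.vb h'.sa.ne h'.sb.ne
      h'.ne.2.2.2.2.1).elim
  · subst e
    exact (h3 p q x' h'.sa.symm h'.ta.symm h'.aa' h'.vs h'.vt h'.va' h'.st.ne h'.ne.1
      h'.ne.2.2.1).elim
  · subst e
    exact (h3 p q y' h'.sb.symm h'.tb.symm h'.bb' h'.vs h'.vt h'.vb' h'.st.ne h'.ne.2.1
      h'.ne.2.2.2.1).elim
  · exact key h' e
  · exact key h'.rev e

end Pool.Agent.LI5
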