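import Pool.Agent.LI4.Ty

/-!
LI5: the type of an `NC` vertex.

`ty_cases`: `HC` gives `T2` (`LI4.ty_hc`), otherwise `local_qv2`.
`ty_two`: if `w` is a neighbour of `x` and no two common neighbours of `w` and `x` are adjacent, then the
type is `T2`: in `QV G x A B`, `w ∈ A` say, and the two other elements of `A` are adjacent common
neighbours.
`qv_disj`: two disjoint edges between `A` and `B` are `Strong` (second alternative with the vertex `x`),
`strong_false`.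
`qv_nc`: `case_two` with `lemX hG hm` and `At.mk' hG hm`.
-/

set_option autoImplicit false

namespace Pool.Agent.LI5

open Pool.Agent.LG6 Pool.Agent.LR5 Pool.Agent.LD6 Pool.Agent.LI4

variable {V : Type} {G : SimpleGraph V}

theorem ty_cases [Fintype V] (hG : IsKConnected 6 G) (hm : ¬ HasCompleteMinor 6 G)
    (hA : ¬ ∃ p, NoMin G {p}) {x : V} (hx : NC G x) :
    (∃ s t a b a' b', T2 G x s t a b a' b') ∨ ∃ A B, QV G x A B := by
  classical
  by_cases hH : ∃ w c₀ c₁ c₂ c₃ c₄ : V, HC G x w c₀ c₁ c₂ c₃ c₄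
  · obtain ⟨w, c₀, c₁, c₂, c₃, c₄, h⟩ := hH
    exact Or.inl ⟨_, _, _, _, _, _, ty_hc hG hm hA hx h⟩
  · push Not at hH
    exact Or.inr (local_qv2 (Gl.mk' hG hm) (At.mk' hG hm hx) hH)

theorem ty_two [Fintype V] (hG : IsKConnected 6 G) (hm : ¬ HasCompleteMinor 6 G)
    (hA : ¬ ∃ p, NoMin G {p}) {x w : V} (hx : NC G x) (hw : G.Adj x w)
    (hno : ∀ y z, G.Adj x y → G.Adj x z → G.Adj w y → G.Adj w z → ¬ G.Adj y z) :
    ∃ s t a b a' b', T2 G x s t a b a' b' := by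
  classical
  rcases ty_cases hG hm hA hx with h | ⟨A, B, q⟩
  · exact h
  · exfalso
    rcases (q.nbr w).1 hw with h | h
    · obtain ⟨c, hc, c', hc', hcw, hcw', hcc, -⟩ := others q.hA h
      exact hno c c' ((q.nbr c).2 (Or.inl hc)) ((q.nbr c').2 (Or.inl hc'))
        (q.cA w h c hc hcw.symm) (q.cA w h c' hc' hcw'.symm) (q.cA c hc c' hc' hcc)
    · obtain ⟨c, hc, c', hc', hcw, hcw', hcc, -⟩ := others q.hB h
      exact hno c c' ((q.nbr c).2 (Or.inr hc)) ((q.nbr c').2 (Or.inr hc'))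
        (q.cB w h c hc hcw.symm) (q.cB w h c' hc' hcw'.symm) (q.cB c hc c' hc' hcc)

theorem qv_disj [Fintype V] (hG : IsKConnected 6 G) (hm : ¬ HasCompleteMinor 6 G) {x : V}
    {A B : Finset V} (q : QV G x A B) {a₁ a₂ b₁ b₂ : V} (h1 : a₁ ∈ A) (h2 : a₂ ∈ A) (h3 : b₁ ∈ B)
    (h4 : b₂ ∈ B) (ha : a₁ ≠ a₂) (hb : b₁ ≠ b₂) (e1 : G.Adj a₁ b₁) (e2 : G.Adj a₂ b₂) : False := by
  have hstrong : ∀ a ∈ A, ∀ b ∈ B, G.Adj a b → Strong G a b := by
    intro a ha b hb hab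
    refine ⟨hab, Or.inr ⟨x, (q.nbr a).2 (Or.inl ha), (q.nbr b).2 (Or.inr hb),
      fun u hu hua hub => ?_⟩⟩
    rcases (q.nbr u).1 hu with h | h
    · exact Or.inl (q.cA a ha u h hua.symm)
    · exact Or.inr (q.cB b hb u h hub.symm)
  have hneAB : ∀ a ∈ A, ∀ b ∈ B, a ≠ b := fun a ha b hb h => q.disj a ha (h ▸ hb)
  exact strong_false hG hm a₁ b₁ a₂ b₂ (hstrong a₁ h1 b₁ h3 e1) (hstrong a₂ h2 b₂ h4 e2) ha
    (hneAB a₁ h1 b₂ h4) (hneAB a₂ h2 b₁ h3).symm hb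

theorem qv_nc [Fintype V] (hG : IsKConnected 6 G) (hm : ¬ HasCompleteMinor 6 G) {x : V}
    {A B : Finset V} (q : QV G x A B) {a : V} (ha : a ∈ A) (hn : NC G a) :
    ∃ b ∈ B, G.Adj a b := by
  classical
  by_contra hcon
  push Not at hcon
  exact case_two (lemX hG hm) q ha (At.mk' hG hm hn) hcon

end Pool.Agent.LI5
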